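import Pool.Agent.Q68.OM.Omega
import Pool.Agent.H98R3.OM.A1

/-!
# Concentration of `Ω(m² + n²)` around prescribed levels
-/

set_option autoImplicit false

open Finset ArithmeticFunction Filter

namespace Pool.Agent.Q68.OM

/-- The sum of `2 / p` over split primes up to `y`. -/
noncomputable def F (y : ℕ) : ℝ := ∑ p ∈ (Icc 1 y).filter (fun p => p.Prime ∧ p % 4 = 1), 2 / (p : ℝ)

theorem F_eq (y : ℕ) : F y = 2 * ∑ n ∈ range (y + 1),
    (if n.Prime ∧ (n : ZMod 4) = 1 then (1 : ℝ) / n else 0) := by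
  unfold F
  rw [← Finset.sum_filter, Finset.mul_sum]
  have h : (Icc 1 y).filter (fun p => p.Prime ∧ p % 4 = 1) =
      (range (y + 1)).filter (fun n : ℕ => n.Prime ∧ (n : ZMod 4) = 1) := by
    ext p
    simp only [Finset.mem_filter, Finset.mem_Icc, Finset.mem_range]
    have h1 : (p : ZMod 4) = 1 ↔ p % 4 = 1 := by
      have : (p : ZMod 4) = ((1 : ℕ) : ZMod 4) ↔ p ≡ 1 [MOD 4] := ZMod.natCast_eq_natCast_iff _ _ _
      rw [Nat.cast_one] at this
      rw [this]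
      rfl
    rw [h1]
    constructor
    · rintro ⟨h2, h3⟩; exact ⟨by omega, h3⟩
    · rintro ⟨h2, h3⟩; exact ⟨⟨h3.1.pos, by omega⟩, h3⟩
  rw [h]
  refine Finset.sum_congr rfl fun p _ => ?_
  ring

theorem F_tendsto : Tendsto F atTop atTop := by
  have h := Pool.Agent.H98R3.OM.not_summable_class (q := 4) (a := 1) isUnit_one
  rw [not_summable_iff_tendsto_nat_atTop_of_nonneg] at h
  · have h2 : Tendsto (fun y : ℕ => 2 * ∑ n ∈ range (y + 1),
      (if n.Prime ∧ (n : ZMod 4) = 1 then (1 : ℝ) / n else 0)) atTop atTop :=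
      Tendsto.const_mul_atTop (by norm_num) (h.comp (tendsto_add_atTop_nat 1))
    refine h2.congr fun y => (F_eq y).symm
  · intro n
    split_ifs <;> positivity

theorem F_succ (y : ℕ) : F (y + 1) ≤ F y + 1 := by
  rw [F_eq, F_eq, Finset.sum_range_succ _ (y + 1), mul_add]
  split_ifs with h
  · have h2 : (2 : ℝ) ≤ ((y + 1 : ℕ) : ℝ) := by exact_mod_cast h.1.two_le
    have h3 : 2 * ((1 : ℝ) / ((y + 1 : ℕ) : ℝ)) ≤ 1 := by
      rw [mul_one_div, div_le_one (by linarith)]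
      exact h2
    linarith
  · linarith

theorem F_le (y : ℕ) : F y ≤ ((Icc 1 y).filter (fun p => p.Prime ∧ p % 4 = 1)).card := by
  unfold F
  calc _ ≤ ∑ p ∈ (Icc 1 y).filter (fun p => p.Prime ∧ p % 4 = 1), (1 : ℝ) := by
        refine Finset.sum_le_sum fun p hp => ?_
        rw [Finset.mem_filter] at hp
        have h2 : (2 : ℝ) ≤ p := by exact_mod_cast hp.2.1.two_le
        rw [div_le_one (by linarith)]
        exact h2
    _ = _ := by simp

theorem card_S_le (y : ℕ) : ((Icc 1 y).filter (fun p => p.Prime ∧ p % 4 = 1)).card ≤ y := by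
  refine (Finset.card_filter_le _ _).trans ?_
  simp

/-- The window size. -/
def win (j L : ℕ) : ℕ := 2 * j * (Nat.sqrt L + 1) + 1

theorem concentration (j L : ℕ) (hj : 1 ≤ j) (hL : 1 ≤ L) : ∃ N, L ≤ N ∧
    ((((Ioc 0 N) ×ˢ (Ioc 0 N)).filter (fun z : ℕ × ℕ =>
      ¬ (L ≤ cardFactors (z.2 ^ 2 + z.1 ^ 2) + win j L ∧
        cardFactors (z.2 ^ 2 + z.1 ^ 2) ≤ L + win j L))).card : ℝ) ≤ 67 / j * (N : ℝ) ^ 2 := by
  classical
  obtain ⟨y, hy1, hy2⟩ : ∃ y, (L : ℝ) ≤ F y ∧ F y ≤ L + 1 := by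
    have hex : ∃ y, (L : ℝ) ≤ F y := (F_tendsto.eventually_ge_atTop (L : ℝ)).exists
    refine ⟨Nat.find hex, Nat.find_spec hex, ?_⟩
    have h0 : Nat.find hex ≠ 0 := by
      intro h
      have h1 := Nat.find_spec hex
      rw [h] at h1
      have h2 : F 0 = 0 := by unfold F; simp
      rw [h2] at h1
      have : (1 : ℝ) ≤ L := by exact_mod_cast hL
      linarith
    obtain ⟨e, he⟩ := Nat.exists_eq_succ_of_ne_zero h0
    have h1 : ¬ (L : ℝ) ≤ F e := Nat.find_min hex (by omega)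
    rw [he]
    have h2 := F_succ e
    push Not at h1
    linarith
  set S := (Icc 1 y).filter (fun p => p.Prime ∧ p % 4 = 1) with hS
  have hy3 : 3 ≤ y := by
    by_contra h
    have h1 : S = ∅ := by
      rw [hS, Finset.filter_eq_empty_iff]
      intro p hp h2
      rw [Finset.mem_Icc] at hp
      have := h2.1.two_le
      omega
    have h2 := F_le y
    rw [← hS, h1] at h2
    have : (1 : ℝ) ≤ L := by exact_mod_cast hL
    simp only [Finset.card_empty, Nat.cast_zero] at h2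
    linarith
  have hcex : ∀ p : ℕ, p.Prime ∧ p % 4 = 1 → ∃ c : ℕ, p ∣ c ^ 2 + 1 := by
    intro p hp
    haveI : Fact p.Prime := ⟨hp.1⟩
    have h1 : IsSquare (-1 : ZMod p) := by
      rw [ZMod.exists_sq_eq_neg_one_iff]
      omega
    obtain ⟨a, ha⟩ := h1
    refine ⟨a.val, ?_⟩
    rw [← ZMod.natCast_eq_zero_iff]
    push_cast
    rw [ZMod.natCast_zmod_val, sq, ← ha]
    ring
  choose! c hc using hcex
  have hcS : ∀ p ∈ S, p ∣ (c p) ^ 2 + 1 := fun p hp => hc p (Finset.mem_filter.1 hp).2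
  set N := y ^ 4 with hN
  have hyN : y ≤ N := by
    calc y = y ^ 1 := (pow_one y).symm
      _ ≤ y ^ 4 := Nat.pow_le_pow_right (by omega) (by norm_num)
  have hLy : L ≤ y := by
    have h1 : (L : ℝ) ≤ y := by
      refine hy1.trans ((F_le y).trans ?_)
      exact_mod_cast card_S_le y
    exact_mod_cast h1
  refine ⟨N, hLy.trans hyN, ?_⟩
  have hE := error y N c S hy3 hN hS hcS
  have hV := variance S y N c (fun p hp => by
    have h1 := (Finset.mem_filter.1 hp).2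
    refine ⟨h1.1, ?_, ?_⟩
    · intro h; rw [h] at h1; norm_num at h1
    · intro h
      have h2 : p ∣ (c p) ^ 2 := dvd_pow h two_ne_zero
      have h3 := (Nat.dvd_add_right h2).1 (hcS p hp)
      exact h1.1.one_lt.ne' (Nat.dvd_one.1 h3)) (card_S_le y)
    (by rw [hN]; exact Nat.pow_le_pow_right (by omega) (by norm_num))
  have hFM : ∑ p ∈ S, 2 / (p : ℝ) = F y := rfl
  rw [hFM] at hV
  set s : ℝ := ((Nat.sqrt L + 1 : ℕ) : ℝ) with hs
  have hs1 : (1 : ℝ) ≤ s := by rw [hs]; push_cast; linarith [Nat.cast_nonneg (α := ℝ) (Nat.sqrt L)]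
  have hs2 : (L : ℝ) + 1 ≤ s ^ 2 := by
    have h1 : L + 1 ≤ (Nat.sqrt L + 1) ^ 2 := by
      have := Nat.lt_succ_sqrt L
      rw [sq]
      exact this
    rw [hs]
    exact_mod_cast h1
  have hj1 : (1 : ℝ) ≤ j := by exact_mod_cast hj
  have hj0 : (0 : ℝ) < j := by linarith
  have hL0 : (0 : ℝ) ≤ L := by positivity
  set D : ℝ := j * s with hD
  have hDj : (j : ℝ) ≤ D := by rw [hD]; nlinarith
  have hD0 : 0 < D := by linarith
  have hwin : ((win j L : ℕ) : ℝ) = 2 * D + 1 := by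
    unfold win
    rw [hD, hs]
    push_cast
    ring
  -- pointwise Markov
  have point : ∀ n ∈ Ioc 0 N, ∀ m ∈ Ioc 0 N,
      (if ¬ (L ≤ cardFactors (m ^ 2 + n ^ 2) + win j L ∧
        cardFactors (m ^ 2 + n ^ 2) ≤ L + win j L) then (1 : ℝ) else 0) ≤
      |((cardFactors (m ^ 2 + n ^ 2) : ℕ) : ℝ) - ∑ p ∈ S, W c p n m| / D +
      ((∑ p ∈ S, W c p n m) - F y) ^ 2 / D ^ 2 := by
    intro n _ m _
    set Ω : ℕ := cardFactors (m ^ 2 + n ^ 2) with hΩ
    set Y : ℝ := ∑ p ∈ S, W c p n m with hY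
    have p1 : 0 ≤ |(Ω : ℝ) - Y| / D := by positivity
    have p2 : 0 ≤ (Y - F y) ^ 2 / D ^ 2 := by positivity
    by_cases h : L ≤ Ω + win j L ∧ Ω ≤ L + win j L
    · rw [if_neg (not_not.2 h)]
      linarith
    · rw [if_pos h]
      by_cases h1 : D ≤ |(Ω : ℝ) - Y|
      · have : 1 ≤ |(Ω : ℝ) - Y| / D := by rwa [one_le_div hD0]
        linarith
      · by_cases h2 : D ≤ |Y - F y|
        · have h3 : 1 ≤ (Y - F y) ^ 2 / D ^ 2 := by
            rw [one_le_div (by positivity), ← sq_abs (Y - F y)]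
            exact pow_le_pow_left₀ hD0.le h2 2
          linarith
        · exfalso
          apply h
          push Not at h1 h2
          rw [abs_lt] at h1 h2
          constructor
          · have : (L : ℝ) ≤ (Ω : ℝ) + (win j L : ℕ) := by
              rw [hwin]; linarith [h1.1, h1.2, h2.1, h2.2]
            exact_mod_cast this
          · have : (Ω : ℝ) ≤ (L : ℝ) + (win j L : ℕ) := by
              rw [hwin]; linarith [h1.1, h1.2, h2.1, h2.2]
            exact_mod_cast this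
  have hcard : ((((Ioc 0 N) ×ˢ (Ioc 0 N)).filter (fun z : ℕ × ℕ =>
      ¬ (L ≤ cardFactors (z.2 ^ 2 + z.1 ^ 2) + win j L ∧
        cardFactors (z.2 ^ 2 + z.1 ^ 2) ≤ L + win j L))).card : ℝ) =
      ∑ n ∈ Ioc 0 N, ∑ m ∈ Ioc 0 N, (if ¬ (L ≤ cardFactors (m ^ 2 + n ^ 2) + win j L ∧
        cardFactors (m ^ 2 + n ^ 2) ≤ L + win j L) then (1 : ℝ) else 0) := by
    rw [Finset.card_filter, ← Finset.sum_product']
    push_cast
    rfl
  rw [hcard]
  refine (Finset.sum_le_sum fun n hn => Finset.sum_le_sum fun m hm => point n hn m hm).trans ?_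
  simp only [Finset.sum_add_distrib, ← Finset.sum_div]
  have hN0 : (0 : ℝ) ≤ (N : ℝ) ^ 2 := by positivity
  have r1 : (∑ n ∈ Ioc 0 N, ∑ m ∈ Ioc 0 N,
      |((cardFactors (m ^ 2 + n ^ 2) : ℕ) : ℝ) - ∑ p ∈ S, W c p n m|) / D ≤
      57 / j * (N : ℝ) ^ 2 := by
    calc _ ≤ 57 * (N : ℝ) ^ 2 / D := div_le_div_of_nonneg_right hE hD0.le
      _ ≤ 57 * (N : ℝ) ^ 2 / j := div_le_div_of_nonneg_left (by positivity) hj0 hDj
      _ = _ := by ring
  have r2 : (∑ n ∈ Ioc 0 N, ∑ m ∈ Ioc 0 N, ((∑ p ∈ S, W c p n m) - F y) ^ 2) / D ^ 2 ≤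
      10 / j * (N : ℝ) ^ 2 := by
    have h1 : (N : ℝ) ^ 2 * (2 * F y + 8) ≤ (N : ℝ) ^ 2 * (10 * ((L : ℝ) + 1)) :=
      mul_le_mul_of_nonneg_left (by linarith) hN0
    have h2 : (j : ℝ) * (L + 1) ≤ D ^ 2 := by
      have h3 : D ^ 2 = j * (j * s ^ 2) := by rw [hD]; ring
      rw [h3]
      refine mul_le_mul_of_nonneg_left ?_ hj0.le
      nlinarith
    calc _ ≤ (N : ℝ) ^ 2 * (10 * ((L : ℝ) + 1)) / D ^ 2 :=
          div_le_div_of_nonneg_right (hV.trans h1) (by positivity)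
      _ ≤ (N : ℝ) ^ 2 * (10 * ((L : ℝ) + 1)) / (j * (L + 1)) :=
          div_le_div_of_nonneg_left (by positivity) (by positivity) h2
      _ = _ := by
        field_simp
  have e67 : (67 : ℝ) / j * (N : ℝ) ^ 2 = 57 / j * (N : ℝ) ^ 2 + 10 / j * (N : ℝ) ^ 2 := by ring
  rw [e67]
  exact add_le_add r1 r2

end Pool.Agent.Q68.OM
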