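import Mathlib

/-!
# Counting in residue classes
-/

set_option autoImplicit false

open Finset

namespace Pool.Agent.Q68.OM

theorem count1 (N d r : ℕ) (hd : 0 < d) :
    |(((Ioc 0 N).filter (fun m => m ≡ r [MOD d])).card : ℝ) - (N : ℝ) / d| ≤ 1 := by
  have h := Nat.Ioc_filter_modEq_card 0 N hd r
  set c : ℕ := ((Ioc 0 N).filter (fun m => m ≡ r [MOD d])).card with hc
  set x : ℚ := ((N : ℚ) - r) / d with hx
  set y : ℚ := (((0 : ℕ) : ℚ) - r) / d with hy
  have hd' : (0 : ℚ) < d := by exact_mod_cast hd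
  have hxy : x - y = (N : ℚ) / d := by
    rw [hx, hy]; push_cast; field_simp; ring
  have h1 := Int.floor_le x
  have h2 := Int.lt_floor_add_one x
  have h3 := Int.floor_le y
  have h4 := Int.lt_floor_add_one y
  have hN : (0 : ℚ) ≤ (N : ℚ) / d := by positivity
  have key : |(c : ℚ) - (N : ℚ) / d| ≤ 1 := by
    have hcq : (c : ℚ) = ((max (⌊x⌋ - ⌊y⌋) 0 : ℤ) : ℚ) := by exact_mod_cast h
    rw [hcq, abs_le]
    push_cast
    rcases le_total ((⌊x⌋ : ℚ) - ⌊y⌋) 0 with h5 | h5
    · rw [max_eq_right h5]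
      constructor <;> linarith
    · rw [max_eq_left h5]
      constructor <;> linarith
  have h6 : ((|(c : ℚ) - (N : ℚ) / d| : ℚ) : ℝ) ≤ ((1 : ℚ) : ℝ) := by exact_mod_cast key
  push_cast at h6
  exact h6

theorem count2 (N p q r s : ℕ) (hp : p.Prime) (hq : q.Prime) (hpq : p ≠ q) :
    |(((Ioc 0 N).filter (fun m => m ≡ r [MOD p] ∧ m ≡ s [MOD q])).card : ℝ) -
      (N : ℝ) / (p * q)| ≤ 1 := by
  have hco : Nat.Coprime p q := (Nat.coprime_primes hp hq).mpr hpq
  obtain ⟨k, hk1, hk2⟩ := Nat.chineseRemainder hco r s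
  have h : (Ioc 0 N).filter (fun m => m ≡ r [MOD p] ∧ m ≡ s [MOD q]) =
      (Ioc 0 N).filter (fun m => m ≡ k [MOD p * q]) := by
    apply Finset.filter_congr
    intro m _
    rw [← Nat.modEq_and_modEq_iff_modEq_mul hco]
    constructor
    · rintro ⟨h1, h2⟩
      exact ⟨h1.trans hk1.symm, h2.trans hk2.symm⟩
    · rintro ⟨h1, h2⟩
      exact ⟨h1.trans hk1, h2.trans hk2⟩
  rw [h]
  have := count1 N (p * q) k (Nat.mul_pos hp.pos hq.pos)
  push_cast at this
  exact this

theorem count_dvd (N p : ℕ) : (((Ioc 0 N).filter (fun m => p ∣ m)).card : ℝ) ≤ (N : ℝ) / p := by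
  rw [Nat.Ioc_filter_dvd_card_eq_div]
  exact Nat.cast_div_le

/-- Indicator of the class `m ≡ ± c n` modulo `p`. -/
def X (c : ℕ → ℕ) (i : ℕ × Bool) (n m : ℕ) : ℝ :=
  if (m ≡ (if i.2 then c i.1 * n else (i.1 - 1) * (c i.1 * n)) [MOD i.1]) then 1 else 0

theorem X_sq (c : ℕ → ℕ) (i : ℕ × Bool) (n m : ℕ) : X c i n m * X c i n m = X c i n m := by
  unfold X
  split_ifs <;> simp

theorem X_nonneg (c : ℕ → ℕ) (i : ℕ × Bool) (n m : ℕ) : 0 ≤ X c i n m := by
  unfold X
  split_ifs <;> norm_num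

theorem sum_X (c : ℕ → ℕ) (i : ℕ × Bool) (hi : 0 < i.1) (n N : ℕ) :
    |∑ m ∈ Ioc 0 N, X c i n m - (N : ℝ) / i.1| ≤ 1 := by
  have h : ∑ m ∈ Ioc 0 N, X c i n m = (((Ioc 0 N).filter (fun m =>
      m ≡ (if i.2 then c i.1 * n else (i.1 - 1) * (c i.1 * n)) [MOD i.1])).card : ℝ) := by
    unfold X
    rw [Finset.card_filter]
    push_cast
    rfl
  rw [h]
  exact count1 _ _ _ hi

theorem sum_XX (c : ℕ → ℕ) (i j : ℕ × Bool) (hi : i.1.Prime) (hj : j.1.Prime) (hij : i.1 ≠ j.1)
    (n N : ℕ) :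
    ∑ m ∈ Ioc 0 N, X c i n m * X c j n m ≤ (N : ℝ) / (i.1 * j.1) + 1 := by
  have h : ∑ m ∈ Ioc 0 N, X c i n m * X c j n m = (((Ioc 0 N).filter (fun m =>
      m ≡ (if i.2 then c i.1 * n else (i.1 - 1) * (c i.1 * n)) [MOD i.1] ∧
      m ≡ (if j.2 then c j.1 * n else (j.1 - 1) * (c j.1 * n)) [MOD j.1])).card : ℝ) := by
    unfold X
    rw [Finset.card_filter]
    push_cast
    refine Finset.sum_congr rfl fun m _ => ?_
    split_ifs <;> simp_all
  rw [h]
  have := count2 N i.1 j.1 (if i.2 then c i.1 * n else (i.1 - 1) * (c i.1 * n))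
    (if j.2 then c j.1 * n else (j.1 - 1) * (c j.1 * n)) hi hj hij
  rw [abs_le] at this
  linarith [this.2]

/-- The two classes meet only in multiples of `p`. -/
theorem sum_XX_same (c : ℕ → ℕ) (p : ℕ) (hp : p.Prime) (hp2 : p ≠ 2) (hc : ¬ p ∣ c p) (n N : ℕ) :
    ∑ m ∈ Ioc 0 N, X c (p, true) n m * X c (p, false) n m ≤
      if p ∣ n then (N : ℝ) / p else 0 := by
  have key : ∀ m, X c (p, true) n m * X c (p, false) n m ≤ if p ∣ n ∧ p ∣ m then 1 else 0 := by
    intro m
    by_cases h1 : m ≡ c p * n [MOD p]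
    · by_cases h2 : m ≡ (p - 1) * (c p * n) [MOD p]
      · have h3 : p ∣ 2 * (c p * n) := by
          have h4 : c p * n + c p * n ≡ (p - 1) * (c p * n) + c p * n [MOD p] :=
            (h1.symm.trans h2).add_right _
          have h5 : (p - 1) * (c p * n) + c p * n = p * (c p * n) := by
            have : 1 ≤ p := hp.one_lt.le
            obtain ⟨e, rfl⟩ : ∃ e, p = e + 1 := ⟨p - 1, by omega⟩
            simp only [Nat.add_sub_cancel]
            ring
          rw [h5, ← two_mul] at h4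
          have h6 := (Nat.modEq_zero_iff_dvd.2 (Nat.dvd_mul_right p (c p * n)))
          exact Nat.modEq_zero_iff_dvd.1 (h4.trans h6)
        have h4 : p ∣ n := by
          rcases (hp.dvd_mul.1 h3) with h | h
          · exact absurd ((Nat.prime_dvd_prime_iff_eq hp Nat.prime_two).1 h) hp2
          · rcases (hp.dvd_mul.1 h) with h | h
            · exact absurd h hc
            · exact h
        have h5 : p ∣ m := by
          have h6 := (Nat.modEq_zero_iff_dvd.2 (h4.mul_left (c p)))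
          exact Nat.modEq_zero_iff_dvd.1 (h1.trans h6)
        rw [if_pos ⟨h4, h5⟩]
        unfold X
        simp only [if_true]
        split_ifs <;> norm_num
      · have : X c (p, false) n m = 0 := by
          unfold X
          simp only [Bool.false_eq_true, if_false]
          rw [if_neg h2]
        rw [this, mul_zero]
        split_ifs <;> norm_num
    · have : X c (p, true) n m = 0 := by
        unfold X
        simp only [if_true]
        rw [if_neg h1]
      rw [this, zero_mul]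
      split_ifs <;> norm_num
  refine (Finset.sum_le_sum fun m _ => key m).trans ?_
  by_cases hn : p ∣ n
  · simp only [hn, true_and, if_true]
    have := count_dvd N p
    rw [Finset.card_filter] at this
    push_cast at this
    exact this
  · simp [hn]

end Pool.Agent.Q68.OM
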