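import Mathlib

/-!
# A Rokhlin type lemma for ergodic maps of non-atomic spaces (not necessarily invertible)
-/

set_option autoImplicit false
set_option linter.unusedSectionVars false

open MeasureTheory Filter Topology

namespace Pool.Agent.Q68.OM

variable {X : Type*} [MeasurableSpace X] {μ : Measure X} [IsProbabilityMeasure μ] {T : X → X}

/-- The points which enter `B` for the first time after exactly `n` steps. -/
def first (T : X → X) (B : Set X) (n : ℕ) : Set X :=
  {x | T^[n] x ∈ B ∧ ∀ k < n, T^[k] x ∉ B}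

theorem meas_first (hT : Measurable T) {B : Set X} (hB : MeasurableSet B) (n : ℕ) :
    MeasurableSet (first T B n) := by
  have e : first T B n = (T^[n]) ⁻¹' B ∩ ⋂ k ∈ Set.Iio n, ((T^[k]) ⁻¹' B)ᶜ := by
    ext x
    simp [first]
  rw [e]
  refine ((hT.iterate n) hB).inter ?_
  exact MeasurableSet.biInter (Set.to_countable _) fun k _ => ((hT.iterate k) hB).compl

theorem exists_first {B : Set X} {x : X} (h : ∃ k, T^[k] x ∈ B) : ∃ n, x ∈ first T B n := by
  classical
  exact ⟨Nat.find h, Nat.find_spec h, fun k hk => Nat.find_min h hk⟩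

theorem ae_visit (hT : Ergodic T μ) {B : Set X} (hB : MeasurableSet B) (hpos : μ B ≠ 0) :
    ∀ᵐ x ∂μ, ∃ k, T^[k] x ∈ B := by
  set V : Set X := ⋃ k, (T^[k]) ⁻¹' B with hV
  have hVm : MeasurableSet V := MeasurableSet.iUnion fun k => (hT.measurable.iterate k) hB
  have hsub : T ⁻¹' V ⊆ V := by
    intro x hx
    obtain ⟨k, hk⟩ := Set.mem_iUnion.1 hx
    refine Set.mem_iUnion.2 ⟨k + 1, ?_⟩
    change T^[k + 1] x ∈ B
    rw [Function.iterate_succ_apply]
    exact hk
  have h := hT.ae_empty_or_univ_of_preimage_ae_le hVm.nullMeasurableSet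
    (Eventually.of_forall fun x hx => hsub hx)
  rcases h with h | h
  · exfalso
    apply hpos
    refine measure_mono_null (t := V) ?_ (by rw [measure_congr h, measure_empty])
    exact Set.subset_iUnion (fun k => (T^[k]) ⁻¹' B) 0
  · filter_upwards [h] with x hx
    have hx' : x ∈ V := by
      have : (x ∈ V) = (x ∈ (Set.univ : Set X)) := hx
      rw [this]; trivial
    obtain ⟨k, hk⟩ := Set.mem_iUnion.1 hx'
    exact ⟨k, hk⟩

/-- A base of a tower of height `h`: the sets `T⁻ⁱ E`, `i < h`, are disjoint and cover the space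
up to a small set. -/
theorem tower (hT : Ergodic T μ)
    (hsmall : ∀ ε : ℝ, 0 < ε → ∃ B : Set X, MeasurableSet B ∧ 0 < μ.real B ∧ μ.real B < ε)
    (h : ℕ) (hh : 1 ≤ h) {ε : ℝ} (hε : 0 < ε) :
    ∃ E : Set X, MeasurableSet E ∧ (h : ℝ) * μ.real E ≤ 1 ∧
      μ.real {x | ∀ i < h, T^[i] x ∉ E} ≤ ε := by
  have hh0 : (0 : ℝ) < h := by exact_mod_cast hh
  obtain ⟨B, hB, hB0, hBε⟩ := hsmall (ε / h) (by positivity)
  set E : Set X := ⋃ q : ℕ, first T B ((q + 1) * h) with hE
  have hEm : MeasurableSet E := MeasurableSet.iUnion fun q => meas_first hT.measurable hB _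
  have hdisj : Set.PairwiseDisjoint (↑(Finset.range h)) (fun i : ℕ => (T^[i]) ⁻¹' E) := by
    have key : ∀ i j : ℕ, i < j → j < h → ∀ x, T^[i] x ∈ E → T^[j] x ∈ E → False := by
      intro i j hij hj x hi hjx
      obtain ⟨q, hq1, hq2⟩ := Set.mem_iUnion.1 hi
      obtain ⟨r, hr1, hr2⟩ := Set.mem_iUnion.1 hjx
      rw [← Function.iterate_add_apply] at hq1 hr1
      -- the first visit times agree
      have h1 : (q + 1) * h + i ≤ (r + 1) * h + j := by
        by_contra hlt
        rw [not_le] at hlt
        have h2 := hq2 ((r + 1) * h + j - i) (by omega)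
        rw [← Function.iterate_add_apply] at h2
        apply h2
        have e : (r + 1) * h + j - i + i = (r + 1) * h + j := by omega
        rw [e]
        exact hr1
      have h2 : (r + 1) * h + j ≤ (q + 1) * h + i := by
        by_contra hlt
        rw [not_le] at hlt
        have hqh : h ≤ (q + 1) * h := Nat.le_mul_of_pos_left _ (Nat.succ_pos q)
        have h3 := hr2 ((q + 1) * h + i - j) (by omega)
        rw [← Function.iterate_add_apply] at h3
        apply h3
        have e : (q + 1) * h + i - j + j = (q + 1) * h + i := by omega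
        rw [e]
        exact hq1
      have h3 : (q + 1) * h + i = (r + 1) * h + j := le_antisymm h1 h2
      have h4 : r < q := by
        by_contra hrq
        rw [not_lt] at hrq
        have h5 : (q + 1) * h ≤ (r + 1) * h := Nat.mul_le_mul_right _ (by omega)
        omega
      have h5 : (r + 1) * h + h ≤ (q + 1) * h := by
        have e : (r + 1) * h + h = (r + 1 + 1) * h := by ring
        rw [e]
        exact Nat.mul_le_mul_right _ (by omega)
      omega
    intro i hi j hj hij
    rw [Function.onFun, Set.disjoint_left]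
    intro x hx hy
    rw [Finset.coe_range, Set.mem_Iio] at hi hj
    rcases lt_or_gt_of_ne hij with hlt | hlt
    · exact key i j hlt hj x hx hy
    · exact key j i hlt hi x hy hx
  refine ⟨E, hEm, ?_, ?_⟩
  · have h1 : μ.real (⋃ i ∈ Finset.range h, (T^[i]) ⁻¹' E) = ∑ i ∈ Finset.range h, μ.real ((T^[i]) ⁻¹' E) :=
      measureReal_biUnion_finset hdisj fun i _ => (hT.measurable.iterate i) hEm
    have h2 : ∀ i ∈ Finset.range h, μ.real ((T^[i]) ⁻¹' E) = μ.real E := by
      intro i _
      exact (hT.toMeasurePreserving.iterate i).measureReal_preimage hEm.nullMeasurableSet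
    rw [Finset.sum_congr rfl h2, Finset.sum_const, Finset.card_range, nsmul_eq_mul] at h1
    rw [← h1]
    exact measureReal_le_one
  · have h1 : ∀ᵐ x ∂μ, x ∈ {x | ∀ i < h, T^[i] x ∉ E} → x ∈ ⋃ i ∈ Finset.range h, (T^[i]) ⁻¹' B := by
      filter_upwards [ae_visit hT hB (by
        intro h0
        rw [Measure.real, h0] at hB0
        simp at hB0)] with x hx hxE
      obtain ⟨n, hn⟩ := exists_first hx
      by_cases hnh : n < h
      · exact Set.mem_biUnion (Finset.mem_coe.2 (Finset.mem_range.2 hnh)) hn.1
      · exfalso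
        rw [not_lt] at hnh
        have hmod : n % h < h := Nat.mod_lt _ hh
        have hdiv : 1 ≤ n / h := (Nat.one_le_div_iff hh).2 hnh
        apply hxE (n % h) hmod
        refine Set.mem_iUnion.2 ⟨n / h - 1, ?_⟩
        have e : (n / h - 1 + 1) * h + n % h = n := by
          rw [Nat.sub_add_cancel hdiv, mul_comm]
          exact Nat.div_add_mod n h
        constructor
        · rw [← Function.iterate_add_apply, e]
          exact hn.1
        · intro k hk
          rw [← Function.iterate_add_apply]
          exact hn.2 _ (by omega)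
    have h2 : μ.real {x | ∀ i < h, T^[i] x ∉ E} ≤ μ.real (⋃ i ∈ Finset.range h, (T^[i]) ⁻¹' B) := by
      unfold Measure.real
      exact ENNReal.toReal_mono (measure_ne_top _ _) (measure_mono_ae h1)
    refine h2.trans ((measureReal_biUnion_finset_le _ _).trans ?_)
    have h3 : ∀ i ∈ Finset.range h, μ.real ((T^[i]) ⁻¹' B) = μ.real B := by
      intro i _
      exact (hT.toMeasurePreserving.iterate i).measureReal_preimage hB.nullMeasurableSet
    rw [Finset.sum_congr rfl h3, Finset.sum_const, Finset.card_range, nsmul_eq_mul]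
    rw [lt_div_iff₀ hh0] at hBε
    linarith

/-- Small sets of positive measure in a standard Borel space without atoms. -/
theorem small_sets [StandardBorelSpace X] [NullSingletonClass μ] {ε : ℝ} (hε : 0 < ε) :
    ∃ B : Set X, MeasurableSet B ∧ 0 < μ.real B ∧ μ.real B < ε := by
  have hf := measurableEmbedding_embeddingReal X
  set f : X → ℝ := embeddingReal X with hfdef
  have hprob : IsProbabilityMeasure (μ.map f) :=
    Measure.isProbabilityMeasure_map hf.measurable.aemeasurable
  have hsing : ∀ y : ℝ, (μ.map f) {y} = 0 := by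
    intro y
    rw [Measure.map_apply hf.measurable (measurableSet_singleton y)]
    refine Set.Subsingleton.measure_zero ?_ μ
    intro a ha b hb
    exact hf.injective ((show f a = y from ha).trans (show f b = y from hb).symm)
  have hU : ∀ y : ℝ, ∃ U : Set ℝ, {y} ⊆ U ∧ IsOpen U ∧ (μ.map f) U < ENNReal.ofReal ε := by
    intro y
    obtain ⟨U, h1, h2, h3⟩ := Set.exists_isOpen_lt_of_lt (μ := μ.map f) {y} (ENNReal.ofReal ε)
      (by rw [hsing]; exact ENNReal.ofReal_pos.2 hε)
    exact ⟨U, h1, h2, h3⟩
  choose U hU1 hU2 hU3 using hU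
  obtain ⟨s, hs, hsU⟩ := TopologicalSpace.countable_cover_nhds
    (fun y => (hU2 y).mem_nhds (hU1 y rfl))
  have hex : ∃ y ∈ s, (μ.map f) (U y) ≠ 0 := by
    by_contra hcon
    push Not at hcon
    have h1 : (μ.map f) (⋃ y ∈ s, U y) = 0 := (measure_biUnion_null_iff hs).2 hcon
    rw [hsU, measure_univ] at h1
    exact one_ne_zero h1
  obtain ⟨y, -, hy⟩ := hex
  refine ⟨f ⁻¹' U y, hf.measurable (hU2 y).measurableSet, ?_, ?_⟩
  · rw [Measure.map_apply hf.measurable (hU2 y).measurableSet] at hy
    exact ENNReal.toReal_pos hy (measure_ne_top _ _)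
  · have h1 := hU3 y
    rw [Measure.map_apply hf.measurable (hU2 y).measurableSet] at h1
    unfold Measure.real
    rw [← ENNReal.toReal_ofReal hε.le]
    exact (ENNReal.toReal_lt_toReal (measure_ne_top _ _) ENNReal.ofReal_ne_top).2 h1

end Pool.Agent.Q68.OM
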