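import Mathlib
import Pool.Agent.Q68.OM.Rok

/-!
# A set whose indicator is constant on long windows of almost every orbit, with both values
-/

set_option autoImplicit false
set_option linter.unusedSectionVars false

open MeasureTheory Filter Topology

namespace Pool.Agent.Q68.OM

variable {X : Type*} [MeasurableSpace X] {μ : Measure X} [IsProbabilityMeasure μ] {T : X → X}

theorem stage (hT : Ergodic T μ)
    (hsmall : ∀ ε : ℝ, 0 < ε → ∃ B : Set X, MeasurableSet B ∧ 0 < μ.real B ∧ μ.real B < ε)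
    (w : ℕ → ℕ) (hw : Monotone w) (hlim : Tendsto (fun L : ℕ => (w (3 * L) : ℝ) / L) atTop (𝓝 0))
    (L0 : ℕ) {δ ε : ℝ} (hδ : 0 < δ) (hε : 0 < ε) :
    ∃ (L1 : ℕ) (B : Set X), L0 ≤ L1 ∧ 1 ≤ L1 ∧ MeasurableSet B ∧ μ.real B ≤ δ ∧
      μ.real {x | ¬ ∃ L, L1 ≤ L ∧ L + w L ≤ 3 * L1 ∧
        ∀ k, L ≤ k + w L → k ≤ L + w L → T^[k] x ∈ B} ≤ ε := by
  have h1 : ∀ᶠ L : ℕ in atTop, (w (3 * L) : ℝ) / L < min (δ / 4) 1 :=
    hlim.eventually_lt_const (by positivity)
  have h2 : ∀ᶠ L : ℕ in atTop, (1 : ℝ) / L < δ / 2 :=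
    tendsto_one_div_atTop_nhds_zero_nat.eventually_lt_const (by positivity)
  obtain ⟨L1, ⟨⟨h3, h4⟩, h5⟩, h6⟩ := (((h1.and h2).and (eventually_ge_atTop L0)).and
    (eventually_ge_atTop 1)).exists
  have hL0 : (0 : ℝ) < L1 := by exact_mod_cast h6
  set W := w (3 * L1) with hW
  have hWL : W ≤ L1 := by
    have h7 : (W : ℝ) / L1 < 1 := lt_of_lt_of_le h3 (min_le_right _ _)
    rw [div_lt_one hL0] at h7
    exact_mod_cast h7.le
  obtain ⟨E, hE, hE1, hE2⟩ := tower hT hsmall L1 h6 hε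
  refine ⟨L1, ⋃ i ∈ Finset.range (2 * W + 1), (T^[i]) ⁻¹' E, h5, h6,
    Finset.measurableSet_biUnion _ fun i _ => (hT.measurable.iterate i) hE, ?_, ?_⟩
  · refine (measureReal_biUnion_finset_le _ _).trans ?_
    have h7 : ∀ i ∈ Finset.range (2 * W + 1), μ.real ((T^[i]) ⁻¹' E) = μ.real E := by
      intro i _
      exact (hT.toMeasurePreserving.iterate i).measureReal_preimage hE.nullMeasurableSet
    rw [Finset.sum_congr rfl h7, Finset.sum_const, Finset.card_range, nsmul_eq_mul]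
    push_cast
    have h8 : μ.real E ≤ 1 / L1 := by
      rw [le_div_iff₀ hL0]; linarith
    have h9 : (W : ℝ) / L1 < δ / 4 := lt_of_lt_of_le h3 (min_le_left _ _)
    calc (2 * (W : ℝ) + 1) * μ.real E ≤ (2 * (W : ℝ) + 1) * (1 / L1) :=
          mul_le_mul_of_nonneg_left h8 (by positivity)
      _ = 2 * (W / L1) + 1 / L1 := by ring
      _ ≤ δ := by linarith
  · -- the point `T^[L1 + W] x` enters `E` before time `L1`
    have hsub : {x | ¬ ∃ L, L1 ≤ L ∧ L + w L ≤ 3 * L1 ∧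
        ∀ k, L ≤ k + w L → k ≤ L + w L →
          T^[k] x ∈ ⋃ i ∈ Finset.range (2 * W + 1), (T^[i]) ⁻¹' E} ⊆
        (T^[L1 + W]) ⁻¹' {x | ∀ i < L1, T^[i] x ∉ E} := by
      intro x hx i hi hmem
      apply hx
      rw [← Function.iterate_add_apply] at hmem
      have hwL : w (L1 + i) ≤ W := hw (by omega)
      refine ⟨L1 + i, by omega, by omega, fun k hk1 hk2 => ?_⟩
      refine Set.mem_biUnion (x := i + (L1 + W) - k) ?_ ?_
      · rw [Finset.coe_range, Set.mem_Iio]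
        omega
      · change T^[i + (L1 + W) - k] (T^[k] x) ∈ E
        rw [← Function.iterate_add_apply]
        have e : i + (L1 + W) - k + k = i + (L1 + W) := by omega
        rw [e]
        exact hmem
    have hmeas : MeasurableSet {x | ∀ i < L1, T^[i] x ∉ E} := by
      have e : {x | ∀ i < L1, T^[i] x ∉ E} = ⋂ i ∈ Set.Iio L1, ((T^[i]) ⁻¹' E)ᶜ := by
        ext x; simp
      rw [e]
      exact MeasurableSet.biInter (Set.to_countable _) fun i _ => ((hT.measurable.iterate i) hE).compl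
    calc μ.real _ ≤ μ.real ((T^[L1 + W]) ⁻¹' {x | ∀ i < L1, T^[i] x ∉ E}) :=
          measureReal_mono hsub
      _ = μ.real {x | ∀ i < L1, T^[i] x ∉ E} :=
          (hT.toMeasurePreserving.iterate _).measureReal_preimage hmeas.nullMeasurableSet
      _ ≤ ε := hE2

theorem dyn (hT : Ergodic T μ)
    (hsmall : ∀ ε : ℝ, 0 < ε → ∃ B : Set X, MeasurableSet B ∧ 0 < μ.real B ∧ μ.real B < ε)
    (w : ℕ → ℕ → ℕ) (hw : ∀ j, Monotone (w j))
    (hlim : ∀ j, Tendsto (fun L : ℕ => (w j (3 * L) : ℝ) / L) atTop (𝓝 0)) :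
    ∃ A : Set X, MeasurableSet A ∧ ∀ᵐ x ∂μ, ∀ᶠ j : ℕ in atTop, ∃ L, j ≤ L ∧
      ∀ k, L ≤ k + w j L → k ≤ L + w j L → (T^[k] x ∈ A ↔ Even j) := by
  have hst : ∀ (j a : ℕ), ∃ (L1 : ℕ) (B : Set X), a + 1 ≤ L1 ∧ MeasurableSet B ∧
      μ.real B ≤ (1 / 2) ^ j / (3 * a + 1) ∧
      μ.real {x | ¬ ∃ L, L1 ≤ L ∧ L + w j L ≤ 3 * L1 ∧
        ∀ k, L ≤ k + w j L → k ≤ L + w j L → T^[k] x ∈ B} ≤ (1 / 2) ^ j := by
    intro j a
    obtain ⟨L1, B, h1, -, h3, h4, h5⟩ := stage hT hsmall (w j) (hw j) (hlim j) (a + 1)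
      (δ := (1 / 2) ^ j / (3 * a + 1)) (ε := (1 / 2) ^ j) (by positivity) (by positivity)
    exact ⟨L1, B, h1, h3, h4, h5⟩
  choose F G hF hGm hG1 hG2 using hst
  -- the scales
  obtain ⟨a, ha0, ha⟩ : ∃ a : ℕ → ℕ, a 0 = 1 ∧ ∀ j, a (j + 1) = F j (a j) :=
    ⟨fun j => Nat.rec 1 (fun j aj => F j aj) j, rfl, fun j => rfl⟩
  have hmono : StrictMono a := strictMono_nat_of_lt_succ fun j => by
    rw [ha j]
    exact hF j (a j)
  have hja : ∀ j, j < a j + 1 := by
    intro j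
    have := hmono.le_apply (x := j)
    omega
  set B : ℕ → Set X := fun j => G j (a j) with hB
  have hBm : ∀ j, MeasurableSet (B j) := fun j => hGm j (a j)
  set A : Set X := ⋃ j ∈ {j : ℕ | Even j}, (B j ∩ ⋂ i ∈ Set.Ioi j, (B i)ᶜ) with hA
  have hAm : MeasurableSet A :=
    MeasurableSet.biUnion (Set.to_countable _) fun j _ => (hBm j).inter
      (MeasurableSet.biInter (Set.to_countable _) fun i _ => (hBm i).compl)
  refine ⟨A, hAm, ?_⟩
  -- bad events
  set bad : ℕ → Set X := fun j => {x | ¬ ∃ L, a (j + 1) ≤ L ∧ L + w j L ≤ 3 * a (j + 1) ∧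
        ∀ k, L ≤ k + w j L → k ≤ L + w j L → T^[k] x ∈ B j} with hbad
  have hbad1 : ∀ j, μ.real (bad j) ≤ (1 / 2) ^ j := by
    intro j
    have := hG2 j (a j)
    simp only [hbad, ha j, hB]
    exact this
  set late : ℕ → Set X := fun j => ⋃ i : ℕ, ⋃ k ∈ Finset.range (3 * a (j + 1) + 1),
    (T^[k]) ⁻¹' (B (j + 1 + i)) with hlate
  have hlate1 : ∀ j, μ (late j) ≤ ENNReal.ofReal ((1 / 2) ^ j) := by
    intro j
    have h1 : ∀ i, μ (⋃ k ∈ Finset.range (3 * a (j + 1) + 1), (T^[k]) ⁻¹' (B (j + 1 + i))) ≤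
        ENNReal.ofReal ((1 / 2) ^ (j + 1 + i)) := by
      intro i
      have h2 : μ.real (⋃ k ∈ Finset.range (3 * a (j + 1) + 1), (T^[k]) ⁻¹' (B (j + 1 + i))) ≤
          (1 / 2) ^ (j + 1 + i) := by
        refine (measureReal_biUnion_finset_le _ _).trans ?_
        have h7 : ∀ k ∈ Finset.range (3 * a (j + 1) + 1), μ.real ((T^[k]) ⁻¹' (B (j + 1 + i))) =
            μ.real (B (j + 1 + i)) := by
          intro k _
          exact (hT.toMeasurePreserving.iterate k).measureReal_preimage (hBm _).nullMeasurableSet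
        rw [Finset.sum_congr rfl h7, Finset.sum_const, Finset.card_range, nsmul_eq_mul]
        have h8 := hG1 (j + 1 + i) (a (j + 1 + i))
        have h9 : a (j + 1) ≤ a (j + 1 + i) := hmono.monotone (Nat.le_add_right _ _)
        have h10 : (a (j + 1) : ℝ) ≤ a (j + 1 + i) := by exact_mod_cast h9
        rw [le_div_iff₀ (by positivity)] at h8
        push_cast
        have h11 : 0 ≤ μ.real (B (j + 1 + i)) := measureReal_nonneg
        calc (3 * (a (j + 1) : ℝ) + 1) * μ.real (B (j + 1 + i))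
            ≤ (3 * (a (j + 1 + i) : ℝ) + 1) * μ.real (B (j + 1 + i)) :=
              mul_le_mul_of_nonneg_right (by linarith) h11
          _ ≤ (1 / 2) ^ (j + 1 + i) := by rw [mul_comm]; exact h8
      rw [← ofReal_measureReal (measure_ne_top μ _)]
      exact ENNReal.ofReal_le_ofReal h2
    calc μ (late j) ≤ ∑' i, μ (⋃ k ∈ Finset.range (3 * a (j + 1) + 1), (T^[k]) ⁻¹' (B (j + 1 + i))) :=
          measure_iUnion_le _
      _ ≤ ∑' i, ENNReal.ofReal ((1 / 2) ^ (j + 1 + i)) := ENNReal.tsum_le_tsum h1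
      _ = ENNReal.ofReal (∑' i : ℕ, (1 / 2 : ℝ) ^ (j + 1 + i)) := by
          rw [ENNReal.ofReal_tsum_of_nonneg (fun i => by positivity)]
          have : Summable fun i : ℕ => (1 / 2 : ℝ) ^ (j + 1) * (1 / 2) ^ i :=
            summable_geometric_two.mul_left _
          refine this.congr fun i => ?_
          rw [pow_add (1 / 2 : ℝ) (j + 1) i]
      _ = ENNReal.ofReal ((1 / 2) ^ j) := by
          congr 1
          simp_rw [pow_add]
          rw [tsum_mul_left, tsum_geometric_two]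
          ring
  have hsum : ∑' j, μ (bad j ∪ late j) ≠ ⊤ := by
    have h1 : ∀ j, μ (bad j ∪ late j) ≤ ENNReal.ofReal (2 * (1 / 2) ^ j) := by
      intro j
      refine (measure_union_le _ _).trans ?_
      rw [two_mul, ENNReal.ofReal_add (by positivity) (by positivity)]
      refine add_le_add ?_ (hlate1 j)
      rw [← ofReal_measureReal (measure_ne_top μ _)]
      exact ENNReal.ofReal_le_ofReal (hbad1 j)
    refine ne_top_of_le_ne_top ?_ (ENNReal.tsum_le_tsum h1)
    rw [← ENNReal.ofReal_tsum_of_nonneg (fun i => by positivity)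
      (summable_geometric_two.mul_left 2)]
    exact ENNReal.ofReal_ne_top
  filter_upwards [ae_eventually_notMem hsum] with x hx
  filter_upwards [hx] with j hj
  rw [Set.mem_union, not_or] at hj
  obtain ⟨hj1, hj2⟩ := hj
  simp only [hbad, Set.mem_ofPred_eq, not_not] at hj1
  obtain ⟨L, hL1, hL2, hL3⟩ := hj1
  have hjL : j ≤ L := by
    have := hja (j + 1)
    omega
  refine ⟨L, hjL, fun k hk1 hk2 => ?_⟩
  have hmem : T^[k] x ∈ B j := hL3 k hk1 hk2
  have hnot : ∀ i, j < i → T^[k] x ∉ B i := by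
    intro i hi hmem2
    apply hj2
    refine Set.mem_iUnion.2 ⟨i - (j + 1), Set.mem_biUnion (x := k) ?_ ?_⟩
    · rw [Finset.coe_range, Set.mem_Iio]
      omega
    · have e : j + 1 + (i - (j + 1)) = i := by omega
      rw [e]
      exact hmem2
  constructor
  · intro hmA
    obtain ⟨i, hi, hi2⟩ := Set.mem_iUnion₂.1 hmA
    have hi3 := hi2.2
    rcases lt_trichotomy i j with h | h | h
    · exfalso
      have := Set.mem_iInter₂.1 hi3 j h
      exact this hmem
    · rw [← h]; exact hi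
    · exact absurd hi2.1 (hnot i h)
  · intro hev
    refine Set.mem_iUnion₂.2 ⟨j, hev, hmem, ?_⟩
    rw [Set.mem_iInter₂]
    intro i hi
    exact hnot i hi

end Pool.Agent.Q68.OM
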