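import Pool.Agent.Q68.OM.Pow

/-!
# Comparison of `Ω(m² + n²)` with the number of split primes
-/

set_option autoImplicit false

open Finset ArithmeticFunction

namespace Pool.Agent.Q68.OM

theorem omega_le (z y : ℕ) (hz : z ≠ 0) (hy : 1 ≤ y) (hzy : z < y ^ 9) :
    ((cardFactors z : ℕ) : ℝ) ≤
      ∑ p ∈ (Icc 1 y).filter Nat.Prime, ∑ k ∈ Icc 1 (9 * y), (if p ^ k ∣ z then (1 : ℝ) else 0) +
        8 := by
  have h1 : cardFactors z = ∑ p ∈ z.primeFactors.filter (fun p => p ≤ y), z.factorization p +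
      ∑ p ∈ z.primeFactors.filter (fun p => ¬ p ≤ y), z.factorization p := by
    rw [cardFactors_eq_sum_factorization, Finsupp.sum, Nat.support_factorization,
      Finset.sum_filter_add_sum_filter_not]
  have hbig : ∑ p ∈ z.primeFactors.filter (fun p => ¬ p ≤ y), z.factorization p ≤ 8 := by
    have h2 : y ^ (∑ p ∈ z.primeFactors.filter (fun p => ¬ p ≤ y), z.factorization p) ≤ z := by
      rw [← Finset.prod_pow_eq_pow_sum]
      have h3 : ∏ p ∈ z.primeFactors.filter (fun p => ¬ p ≤ y), y ^ z.factorization p ≤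
          ∏ p ∈ z.primeFactors.filter (fun p => ¬ p ≤ y), p ^ z.factorization p := by
        refine Finset.prod_le_prod' fun p hp => ?_
        rw [Finset.mem_filter] at hp
        exact Nat.pow_le_pow_left (by omega) _
      refine h3.trans ?_
      have h4 : ∏ p ∈ z.primeFactors.filter (fun p => ¬ p ≤ y), p ^ z.factorization p ≤
          ∏ p ∈ z.primeFactors, p ^ z.factorization p := by
        refine Finset.prod_le_prod_of_subset_of_one_le' (Finset.filter_subset _ _) ?_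
        intro p hp _
        exact Nat.one_le_pow _ _ (Nat.prime_of_mem_primeFactors hp).pos
      refine h4.trans ?_
      have h5 := Nat.prod_factorization_pow_eq_self hz
      rw [Finsupp.prod, Nat.support_factorization] at h5
      exact h5.le
    have h6 := lt_of_le_of_lt h2 hzy
    by_contra h7
    have h7 := not_le.1 h7
    have h8 : y ^ 9 ≤ y ^ (∑ p ∈ z.primeFactors.filter (fun p => ¬ p ≤ y), z.factorization p) :=
      Nat.pow_le_pow_right hy (by omega)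
    omega
  have hz2 : z < 2 ^ (9 * y) := by
    calc z < y ^ 9 := hzy
      _ ≤ (2 ^ y) ^ 9 := Nat.pow_le_pow_left (Nat.lt_two_pow_self).le 9
      _ = 2 ^ (9 * y) := by rw [← pow_mul]; ring_nf
  have hsmall : ((∑ p ∈ z.primeFactors.filter (fun p => p ≤ y), z.factorization p : ℕ) : ℝ) ≤
      ∑ p ∈ (Icc 1 y).filter Nat.Prime, ∑ k ∈ Icc 1 (9 * y),
        (if p ^ k ∣ z then (1 : ℝ) else 0) := by
    have h2 : ∑ p ∈ z.primeFactors.filter (fun p => p ≤ y), z.factorization p ≤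
        ∑ p ∈ (Icc 1 y).filter Nat.Prime, z.factorization p := by
      refine Finset.sum_le_sum_of_subset ?_
      intro p hp
      rw [Finset.mem_filter] at hp
      rw [Finset.mem_filter, Finset.mem_Icc]
      have := Nat.prime_of_mem_primeFactors hp.1
      exact ⟨⟨this.pos, hp.2⟩, this⟩
    have h3 : ∀ p ∈ (Icc 1 y).filter Nat.Prime, (z.factorization p : ℝ) =
        ∑ k ∈ Icc 1 (9 * y), (if p ^ k ∣ z then (1 : ℝ) else 0) := by
      intro p hp
      rw [Finset.mem_filter] at hp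
      have h4 : z.factorization p ≤ 9 * y := by
        by_contra h5
        push Not at h5
        have h6 : p ^ z.factorization p ∣ z := Nat.ordProj_dvd z p
        have h7 := Nat.le_of_dvd (Nat.pos_of_ne_zero hz) h6
        have h8 : 2 ^ (9 * y) ≤ p ^ z.factorization p :=
          (Nat.pow_le_pow_right (by norm_num) h5.le).trans (Nat.pow_le_pow_left hp.2.two_le _)
        omega
      have h5 : ∑ k ∈ Icc 1 (9 * y), (if p ^ k ∣ z then (1 : ℝ) else 0) =
          (((Icc 1 (9 * y)).filter (fun k => p ^ k ∣ z)).card : ℝ) := by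
        rw [Finset.card_filter]; push_cast; rfl
      rw [h5]
      have h6 : (Icc 1 (9 * y)).filter (fun k => p ^ k ∣ z) = Icc 1 (z.factorization p) := by
        ext k
        rw [Finset.mem_filter, Finset.mem_Icc, Finset.mem_Icc,
          hp.2.pow_dvd_iff_le_factorization hz]
        omega
      rw [h6, Nat.card_Icc, Nat.add_sub_cancel]
    rw [← Finset.sum_congr rfl h3]
    exact_mod_cast h2
  have h9 : ((∑ p ∈ z.primeFactors.filter (fun p => ¬ p ≤ y), z.factorization p : ℕ) : ℝ) ≤ 8 := by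
    exact_mod_cast hbig
  rw [h1, Nat.cast_add]
  linarith

theorem le_omega (z : ℕ) (hz : z ≠ 0) (S : Finset ℕ) (hS : ∀ p ∈ S, p.Prime) :
    ∑ p ∈ S, (if p ∣ z then (1 : ℝ) else 0) ≤ ((cardFactors z : ℕ) : ℝ) := by
  have h1 : ∑ p ∈ S, (if p ∣ z then (1 : ℝ) else 0) = ((S.filter (fun p => p ∣ z)).card : ℝ) := by
    rw [Finset.card_filter]; push_cast; rfl
  rw [h1]
  have h2 : (S.filter (fun p => p ∣ z)).card ≤ cardFactors z := by
    rw [cardFactors_eq_sum_factorization, Finsupp.sum, Nat.support_factorization]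
    calc (S.filter (fun p => p ∣ z)).card = ∑ p ∈ S.filter (fun p => p ∣ z), 1 := by simp
      _ ≤ ∑ p ∈ S.filter (fun p => p ∣ z), z.factorization p := by
        refine Finset.sum_le_sum fun p hp => ?_
        rw [Finset.mem_filter] at hp
        exact (hS p hp.1).factorization_pos_of_dvd hz hp.2
      _ ≤ ∑ p ∈ z.primeFactors, z.factorization p := by
        refine Finset.sum_le_sum_of_subset ?_
        intro p hp
        rw [Finset.mem_filter] at hp
        exact Nat.mem_primeFactors.2 ⟨hS p hp.1, hp.2, hz⟩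
  exact_mod_cast h2

/-- tail of the geometric-type sum -/
theorem geo (K : ℕ) : ∑ k ∈ Icc 2 K, ((k : ℝ) + 2) / 2 ^ k ≤ 5 / 2 - 2 * ((K : ℝ) + 4) / 2 ^ (K + 1) ∨
    K < 2 := by
  rcases lt_or_ge K 2 with h | h
  · right; exact h
  · left
    induction K, h using Nat.le_induction with
    | base => norm_num
    | succ K hK ih =>
      rw [Finset.sum_Icc_succ_top (by omega)]
      have : ((K : ℝ) + 1 + 2) / 2 ^ (K + 1) = 2 * ((K : ℝ) + 4) / 2 ^ (K + 1) -
          2 * ((K : ℝ) + 1 + 4) / 2 ^ (K + 1 + 1) := by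
        rw [pow_succ 2 (K + 1)]
        field_simp
        ring
      push_cast
      linarith

theorem geo' (K : ℕ) : ∑ k ∈ Icc 2 K, ((k : ℝ) + 2) / 2 ^ k ≤ 5 / 2 := by
  rcases geo K with h | h
  · have : (0 : ℝ) ≤ 2 * ((K : ℝ) + 4) / 2 ^ (K + 1) := by positivity
    linarith
  · rw [Finset.Icc_eq_empty (by omega), Finset.sum_empty]
    norm_num

theorem geo_p (p K : ℕ) (hp : 2 ≤ p) :
    ∑ k ∈ Icc 2 K, ((k : ℝ) + 2) / (p : ℝ) ^ k ≤ 10 / (p : ℝ) ^ 2 := by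
  have hp2 : (2 : ℝ) ≤ p := by exact_mod_cast hp
  have hp0 : (0 : ℝ) < p := by linarith
  have h1 : ∀ k ∈ Icc 2 K, ((k : ℝ) + 2) / (p : ℝ) ^ k ≤
      4 / (p : ℝ) ^ 2 * (((k : ℝ) + 2) / 2 ^ k) := by
    intro k hk
    rw [Finset.mem_Icc] at hk
    obtain ⟨j, rfl⟩ : ∃ j, k = j + 2 := ⟨k - 2, by omega⟩
    rw [div_mul_div_comm]
    have e : (p : ℝ) ^ 2 * 2 ^ (j + 2) = 4 * ((p : ℝ) ^ 2 * 2 ^ j) := by ring
    rw [e, mul_div_mul_left _ _ (by norm_num : (4 : ℝ) ≠ 0)]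
    apply div_le_div_of_nonneg_left (by positivity) (by positivity)
    rw [pow_add, mul_comm]
    gcongr
  refine (Finset.sum_le_sum h1).trans ?_
  rw [← Finset.mul_sum]
  have h2 := geo' K
  calc 4 / (p : ℝ) ^ 2 * ∑ k ∈ Icc 2 K, ((k : ℝ) + 2) / 2 ^ k ≤ 4 / (p : ℝ) ^ 2 * (5 / 2) :=
        mul_le_mul_of_nonneg_left h2 (by positivity)
    _ = 10 / (p : ℝ) ^ 2 := by ring

theorem sum_inv_sq (y : ℕ) (P : Finset ℕ) (hP : ∀ p ∈ P, 2 ≤ p ∧ p ≤ y) :
    ∑ p ∈ P, 1 / (p : ℝ) ^ 2 ≤ 1 := by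
  rcases Nat.eq_zero_or_pos y with h | h
  · have : P = ∅ := by
      rw [Finset.eq_empty_iff_forall_notMem]
      intro p hp
      have := hP p hp
      omega
    rw [this, Finset.sum_empty]
    norm_num
  · have h1 : ∑ p ∈ P, 1 / (p : ℝ) ^ 2 ≤ ∑ p ∈ Ioc 1 y, 1 / (p : ℝ) ^ 2 := by
      refine Finset.sum_le_sum_of_subset_of_nonneg ?_ fun p _ _ => by positivity
      intro p hp
      rw [Finset.mem_Ioc]
      have := hP p hp
      omega
    have h2 := sum_Ioc_inv_sq_le_sub (α := ℝ) (k := 1) (n := y) one_ne_zero h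
    have h3 : ∑ p ∈ Ioc 1 y, 1 / (p : ℝ) ^ 2 = ∑ p ∈ Ioc 1 y, ((p : ℝ) ^ 2)⁻¹ := by
      refine Finset.sum_congr rfl fun p _ => ?_
      rw [one_div]
    rw [h3] at h1
    have h4 : (0 : ℝ) ≤ (y : ℝ)⁻¹ := by positivity
    have h5 : ((1 : ℕ) : ℝ)⁻¹ = 1 := by norm_num
    rw [h5] at h2
    linarith

/-- Total error between `Ω(m² + n²)` and the counting function of split primes. -/
theorem error (y N : ℕ) (c : ℕ → ℕ) (S : Finset ℕ) (hy : 3 ≤ y) (hN : N = y ^ 4)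
    (hS : S = (Icc 1 y).filter (fun p => p.Prime ∧ p % 4 = 1))
    (hc : ∀ p ∈ S, p ∣ (c p) ^ 2 + 1) :
    ∑ n ∈ Ioc 0 N, ∑ m ∈ Ioc 0 N,
      |((cardFactors (m ^ 2 + n ^ 2) : ℕ) : ℝ) - ∑ p ∈ S, W c p n m| ≤ 57 * (N : ℝ) ^ 2 := by
  classical
  set P := (Icc 1 y).filter Nat.Prime with hP
  have hSP : S ⊆ P := by
    intro p hp
    rw [hS, Finset.mem_filter] at hp
    rw [hP, Finset.mem_filter]
    exact ⟨hp.1, hp.2.1⟩
  have hPp : ∀ p ∈ P, p.Prime := fun p hp => (Finset.mem_filter.1 hp).2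
  have hPy : ∀ p ∈ P, 2 ≤ p ∧ p ≤ y := by
    intro p hp
    have h := Finset.mem_filter.1 hp
    exact ⟨h.2.two_le, (Finset.mem_Icc.1 h.1).2⟩
  have hSp : ∀ p ∈ S, p.Prime := fun p hp => hPp p (hSP hp)
  have hN0 : (0 : ℝ) ≤ N := by positivity
  -- pointwise bound
  have point : ∀ n ∈ Ioc 0 N, ∀ m ∈ Ioc 0 N,
      |((cardFactors (m ^ 2 + n ^ 2) : ℕ) : ℝ) - ∑ p ∈ S, W c p n m| ≤
        ∑ p ∈ P \ S, (if p ^ 1 ∣ m ^ 2 + n ^ 2 then (1 : ℝ) else 0) +
        ∑ p ∈ P, ∑ k ∈ Icc 2 (9 * y), (if p ^ k ∣ m ^ 2 + n ^ 2 then (1 : ℝ) else 0) + 8 +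
        ∑ p ∈ S, X c (p, true) n m * X c (p, false) n m := by
    intro n hn m hm
    rw [Finset.mem_Ioc] at hn hm
    set z := m ^ 2 + n ^ 2 with hz
    have hz0 : z ≠ 0 := by
      rw [hz]
      have : 0 < m ^ 2 := pow_pos hm.1 2
      omega
    have hzy : z < y ^ 9 := by
      have h1 : m ^ 2 ≤ N ^ 2 := Nat.pow_le_pow_left hm.2 2
      have h2 : n ^ 2 ≤ N ^ 2 := Nat.pow_le_pow_left hn.2 2
      have h3 : N ^ 2 = y ^ 8 := by rw [hN, ← pow_mul]
      have h4 : y ^ 9 = y ^ 8 * y := pow_succ y 8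
      have h5 : 0 < y ^ 8 := pow_pos (by omega) 8
      rw [h4]
      nlinarith
    have o1 := omega_le z y hz0 (by omega) hzy
    have o2 := le_omega z hz0 S hSp
    have e1 : ∑ p ∈ P, ∑ k ∈ Icc 1 (9 * y), (if p ^ k ∣ z then (1 : ℝ) else 0) =
        ∑ p ∈ S, (if p ∣ z then (1 : ℝ) else 0) +
        ∑ p ∈ P \ S, (if p ^ 1 ∣ z then (1 : ℝ) else 0) +
        ∑ p ∈ P, ∑ k ∈ Icc 2 (9 * y), (if p ^ k ∣ z then (1 : ℝ) else 0) := by
      have f1 : ∀ p, ∑ k ∈ Icc 1 (9 * y), (if p ^ k ∣ z then (1 : ℝ) else 0) =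
          (if p ^ 1 ∣ z then (1 : ℝ) else 0) +
          ∑ k ∈ Icc 2 (9 * y), (if p ^ k ∣ z then (1 : ℝ) else 0) := by
        intro p
        rw [← Finset.insert_Icc_succ_left_eq_Icc (by omega : 1 ≤ 9 * y), Finset.sum_insert]
        · rfl
        · simp
      rw [Finset.sum_congr rfl fun p _ => f1 p, Finset.sum_add_distrib,
        ← Finset.sum_sdiff hSP]
      simp only [pow_one]
      ring
    have w1 : ∑ p ∈ S, (if p ∣ z then (1 : ℝ) else 0) ≤ ∑ p ∈ S, W c p n m :=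
      Finset.sum_le_sum fun p hp => (W_spec c p n m (hSp p hp) (hc p hp)).1
    have w2 : ∑ p ∈ S, W c p n m ≤ ∑ p ∈ S, (if p ∣ z then (1 : ℝ) else 0) +
        ∑ p ∈ S, X c (p, true) n m * X c (p, false) n m := by
      rw [← Finset.sum_add_distrib]
      exact Finset.sum_le_sum fun p hp => (W_spec c p n m (hSp p hp) (hc p hp)).2
    have n1 : (0 : ℝ) ≤ ∑ p ∈ P \ S, (if p ^ 1 ∣ z then (1 : ℝ) else 0) :=
      Finset.sum_nonneg fun p _ => by split_ifs <;> norm_num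
    have n2 : (0 : ℝ) ≤ ∑ p ∈ P, ∑ k ∈ Icc 2 (9 * y), (if p ^ k ∣ z then (1 : ℝ) else 0) :=
      Finset.sum_nonneg fun p _ => Finset.sum_nonneg fun k _ => by split_ifs <;> norm_num
    have n3 : (0 : ℝ) ≤ ∑ p ∈ S, X c (p, true) n m * X c (p, false) n m :=
      Finset.sum_nonneg fun p _ => mul_nonneg (X_nonneg _ _ _ _) (X_nonneg _ _ _ _)
    rw [abs_le]
    constructor <;> linarith
  refine (Finset.sum_le_sum fun n hn => Finset.sum_le_sum fun m hm => point n hn m hm).trans ?_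
  simp only [Finset.sum_add_distrib]
  -- four pieces
  have q1 : ∑ n ∈ Ioc 0 N, ∑ m ∈ Ioc 0 N, ∑ p ∈ P \ S,
      (if p ^ 1 ∣ m ^ 2 + n ^ 2 then (1 : ℝ) else 0) ≤ 2 * (N : ℝ) ^ 2 := by
    have e : ∑ n ∈ Ioc 0 N, ∑ m ∈ Ioc 0 N, ∑ p ∈ P \ S,
        (if p ^ 1 ∣ m ^ 2 + n ^ 2 then (1 : ℝ) else 0) = ∑ p ∈ P \ S, (U p 1 N : ℝ) := by
      rw [Finset.sum_congr rfl fun n _ => Finset.sum_comm, Finset.sum_comm]
      refine Finset.sum_congr rfl fun p _ => ?_
      rw [U_eq]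
    rw [e]
    have e2 : ∑ p ∈ P \ S, (U p 1 N : ℝ) ≤ ∑ p ∈ P \ S,
        ((N : ℝ) ^ 2 * (1 / (p : ℝ) ^ 2) + if p = 2 then (N : ℝ) ^ 2 else 0) := by
      refine Finset.sum_le_sum fun p hp => ?_
      rw [Finset.mem_sdiff] at hp
      have hpp := hPp p hp.1
      by_cases hp2 : p = 2
      · rw [if_pos hp2]
        have h1 : U p 1 N ≤ N ^ 2 := by
          unfold U
          refine (Finset.card_filter_le _ _).trans ?_
          simp [sq]
        have h2 : (U p 1 N : ℝ) ≤ (N : ℝ) ^ 2 := by exact_mod_cast h1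
        have h3 : (0 : ℝ) ≤ (N : ℝ) ^ 2 * (1 / (p : ℝ) ^ 2) := by positivity
        linarith
      · rw [if_neg hp2, add_zero]
        have h3 : p % 4 = 3 := by
          have h4 := hpp.eq_one_or_self_of_dvd 2
          have h5 : p % 2 = 1 := by
            rcases hpp.eq_two_or_odd with h | h
            · exact absurd h hp2
            · exact h
          have h6 : p % 4 ≠ 1 := by
            intro h
            apply hp.2
            rw [hS, Finset.mem_filter]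
            exact ⟨(Finset.mem_filter.1 hp.1).1, hpp, h⟩
          omega
        have := U_one_three p hpp h3 N
        rw [div_eq_mul_one_div] at this
        exact this
    refine e2.trans ?_
    rw [Finset.sum_add_distrib, ← Finset.mul_sum, Finset.sum_ite_eq']
    have h1 := sum_inv_sq y (P \ S) (fun p hp => hPy p (Finset.mem_sdiff.1 hp).1)
    have h2 : (N : ℝ) ^ 2 * ∑ p ∈ P \ S, 1 / (p : ℝ) ^ 2 ≤ (N : ℝ) ^ 2 * 1 :=
      mul_le_mul_of_nonneg_left h1 (by positivity)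
    have h3 : (if 2 ∈ P \ S then (N : ℝ) ^ 2 else 0) ≤ (N : ℝ) ^ 2 := by
      split_ifs
      · exact le_rfl
      · positivity
    linarith
  have q2 : ∑ n ∈ Ioc 0 N, ∑ m ∈ Ioc 0 N, ∑ p ∈ P, ∑ k ∈ Icc 2 (9 * y),
      (if p ^ k ∣ m ^ 2 + n ^ 2 then (1 : ℝ) else 0) ≤ 46 * (N : ℝ) ^ 2 := by
    have e : ∑ n ∈ Ioc 0 N, ∑ m ∈ Ioc 0 N, ∑ p ∈ P, ∑ k ∈ Icc 2 (9 * y),
        (if p ^ k ∣ m ^ 2 + n ^ 2 then (1 : ℝ) else 0) =
        ∑ p ∈ P, ∑ k ∈ Icc 2 (9 * y), (U p k N : ℝ) := by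
      rw [Finset.sum_congr rfl fun n _ => Finset.sum_comm, Finset.sum_comm]
      refine Finset.sum_congr rfl fun p _ => ?_
      rw [Finset.sum_congr rfl fun n _ => Finset.sum_comm, Finset.sum_comm]
      refine Finset.sum_congr rfl fun k _ => ?_
      rw [U_eq]
    rw [e]
    have e2 : ∑ p ∈ P, ∑ k ∈ Icc 2 (9 * y), (U p k N : ℝ) ≤
        ∑ p ∈ P, ((N : ℝ) ^ 2 * (10 * (1 / (p : ℝ) ^ 2)) + 9 * y * (4 * N)) := by
      refine Finset.sum_le_sum fun p hp => ?_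
      have h1 : ∑ k ∈ Icc 2 (9 * y), (U p k N : ℝ) ≤
          ∑ k ∈ Icc 2 (9 * y), ((N : ℝ) ^ 2 * (((k : ℝ) + 2) / (p : ℝ) ^ k) + 4 * N) := by
        refine Finset.sum_le_sum fun k _ => ?_
        have := U_le p (hPp p hp) k N
        have e3 : ((k : ℝ) + 2) * ((N : ℝ) ^ 2 / (p : ℝ) ^ k) =
          (N : ℝ) ^ 2 * (((k : ℝ) + 2) / (p : ℝ) ^ k) := by ring
        rw [e3] at this
        exact this
      refine h1.trans ?_
      rw [Finset.sum_add_distrib, ← Finset.mul_sum, Finset.sum_const, nsmul_eq_mul, Nat.card_Icc]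
      have h2 := geo_p p (9 * y) (hPy p hp).1
      have h3 : (N : ℝ) ^ 2 * ∑ k ∈ Icc 2 (9 * y), ((k : ℝ) + 2) / (p : ℝ) ^ k ≤
          (N : ℝ) ^ 2 * (10 / (p : ℝ) ^ 2) := mul_le_mul_of_nonneg_left h2 (by positivity)
      have h4 : ((9 * y + 1 - 2 : ℕ) : ℝ) ≤ 9 * y := by
        have : 9 * y + 1 - 2 ≤ 9 * y := by omega
        exact_mod_cast this
      have h5 : ((9 * y + 1 - 2 : ℕ) : ℝ) * (4 * N) ≤ 9 * y * (4 * N) :=
        mul_le_mul_of_nonneg_right h4 (by positivity)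
      have h6 : (10 : ℝ) / (p : ℝ) ^ 2 = 10 * (1 / (p : ℝ) ^ 2) := by ring
      rw [← h6]
      linarith
    refine e2.trans ?_
    rw [Finset.sum_add_distrib, ← Finset.mul_sum, ← Finset.mul_sum, Finset.sum_const, nsmul_eq_mul]
    have h1 := sum_inv_sq y P hPy
    have h2 : (P.card : ℝ) ≤ y := by
      have : P.card ≤ y := by
        refine (Finset.card_filter_le _ _).trans ?_
        simp
      exact_mod_cast this
    have h3 : (P.card : ℝ) * (9 * y * (4 * N)) ≤ y * (9 * y * (4 * N)) :=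
      mul_le_mul_of_nonneg_right h2 (by positivity)
    have h4 : (y : ℝ) ^ 2 ≤ N := by
      have : y ^ 2 ≤ y ^ 4 := Nat.pow_le_pow_right (by omega) (by norm_num)
      rw [hN]
      exact_mod_cast this
    have h5 : (y : ℝ) * (9 * y * (4 * N)) = 36 * N * (y : ℝ) ^ 2 := by ring
    have h6 : 36 * (N : ℝ) * (y : ℝ) ^ 2 ≤ 36 * N * N :=
      mul_le_mul_of_nonneg_left h4 (by positivity)
    have h7 : (N : ℝ) ^ 2 * (10 * ∑ p ∈ P, 1 / (p : ℝ) ^ 2) ≤ (N : ℝ) ^ 2 * (10 * 1) :=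
      mul_le_mul_of_nonneg_left (by linarith) (by positivity)
    nlinarith
  have q3 : ∑ n ∈ Ioc 0 N, ∑ m ∈ Ioc 0 N, (8 : ℝ) = 8 * (N : ℝ) ^ 2 := by
    simp only [Finset.sum_const, Nat.card_Ioc, Nat.sub_zero, nsmul_eq_mul]
    ring
  have q4 : ∑ n ∈ Ioc 0 N, ∑ m ∈ Ioc 0 N, ∑ p ∈ S, X c (p, true) n m * X c (p, false) n m ≤
      (N : ℝ) ^ 2 := by
    have e : ∑ n ∈ Ioc 0 N, ∑ m ∈ Ioc 0 N, ∑ p ∈ S, X c (p, true) n m * X c (p, false) n m =
        ∑ p ∈ S, ∑ n ∈ Ioc 0 N, ∑ m ∈ Ioc 0 N, X c (p, true) n m * X c (p, false) n m := by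
      rw [Finset.sum_congr rfl fun n _ => Finset.sum_comm, Finset.sum_comm]
    rw [e]
    have e2 : ∀ p ∈ S, ∑ n ∈ Ioc 0 N, ∑ m ∈ Ioc 0 N, X c (p, true) n m * X c (p, false) n m ≤
        (N : ℝ) ^ 2 * (1 / (p : ℝ) ^ 2) := by
      intro p hp
      have hpp := hSp p hp
      have hp2 : p ≠ 2 := by
        intro h
        have h1 := (Finset.mem_filter.1 (hS ▸ hp)).2.2
        rw [h] at h1
        norm_num at h1
      have hcp : ¬ p ∣ c p := by
        intro h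
        have h1 : p ∣ (c p) ^ 2 := dvd_pow h two_ne_zero
        have h2 := (Nat.dvd_add_right h1).1 (hc p hp)
        exact hpp.one_lt.ne' (Nat.dvd_one.1 h2)
      refine (Finset.sum_le_sum fun n _ => sum_XX_same c p hpp hp2 hcp n N).trans ?_
      rw [← Finset.sum_filter, Finset.sum_const, nsmul_eq_mul]
      have h3 := count_dvd N p
      calc _ ≤ (N : ℝ) / p * ((N : ℝ) / p) := mul_le_mul_of_nonneg_right h3 (by positivity)
        _ = _ := by rw [div_mul_div_comm, ← sq, ← sq]; ring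
    refine (Finset.sum_le_sum e2).trans ?_
    rw [← Finset.mul_sum]
    have h1 := sum_inv_sq y S (fun p hp => hPy p (hSP hp))
    calc (N : ℝ) ^ 2 * ∑ p ∈ S, 1 / (p : ℝ) ^ 2 ≤ (N : ℝ) ^ 2 * 1 :=
          mul_le_mul_of_nonneg_left h1 (by positivity)
      _ = _ := mul_one _
  linarith

end Pool.Agent.Q68.OM
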