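import Pool.Agent.Q68.OM.Var

/-!
# Prime powers dividing sums of two squares
-/

set_option autoImplicit false

open Finset

namespace Pool.Agent.Q68.OM

/-- Number of pairs in the box with `p ^ k ∣ m ^ 2 + n ^ 2`. -/
def U (p k N : ℕ) : ℕ :=
  (((Ioc 0 N) ×ˢ (Ioc 0 N)).filter (fun z : ℕ × ℕ => p ^ k ∣ z.2 ^ 2 + z.1 ^ 2)).card

theorem U_eq (p k N : ℕ) : (U p k N : ℝ) =
    ∑ n ∈ Ioc 0 N, ∑ m ∈ Ioc 0 N, (if p ^ k ∣ m ^ 2 + n ^ 2 then (1 : ℝ) else 0) := by
  unfold U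
  rw [Finset.card_filter, ← Finset.sum_product']
  push_cast
  rfl

theorem count_sq (p k n N : ℕ) (hp : p.Prime) (hk : 1 ≤ k) (hn : ¬ p ∣ n) :
    (((Ioc 0 N).filter (fun m => p ^ k ∣ m ^ 2 + n ^ 2)).card : ℝ) ≤
      2 * ((N : ℝ) / (p : ℝ) ^ k + 1) := by
  have hpk : 0 < p ^ k := pow_pos hp.pos k
  by_cases hp2 : p = 2
  · subst hp2
    by_cases hk2 : 2 ≤ k
    · have : (Ioc 0 N).filter (fun m => 2 ^ k ∣ m ^ 2 + n ^ 2) = ∅ := by
        rw [Finset.filter_eq_empty_iff]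
        intro m _ h
        have h4 : 4 ∣ m ^ 2 + n ^ 2 := (pow_dvd_pow 2 hk2).trans h
        have hn1 : n % 4 = 1 ∨ n % 4 = 3 := by omega
        have hm1 : m % 4 = 0 ∨ m % 4 = 1 ∨ m % 4 = 2 ∨ m % 4 = 3 := by omega
        have h5 : (m ^ 2 + n ^ 2) % 4 = 0 := Nat.mod_eq_zero_of_dvd h4
        rw [Nat.add_mod, Nat.pow_mod, Nat.pow_mod n] at h5
        rcases hn1 with h6 | h6 <;> rcases hm1 with h7 | h7 | h7 | h7 <;> rw [h6, h7] at h5 <;>
          norm_num at h5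
      rw [this]
      simp only [Finset.card_empty, Nat.cast_zero]
      positivity
    · have hk1 : k = 1 := by omega
      subst hk1
      have : ((Ioc 0 N).filter (fun m => 2 ^ 1 ∣ m ^ 2 + n ^ 2)).card ≤ N := by
        refine (Finset.card_filter_le _ _).trans ?_
        simp
      have h2 : (((Ioc 0 N).filter (fun m => 2 ^ 1 ∣ m ^ 2 + n ^ 2)).card : ℝ) ≤ N := by
        exact_mod_cast this
      refine h2.trans ?_
      push_cast
      linarith
  · by_cases hne : ((Ioc 0 N).filter (fun m => p ^ k ∣ m ^ 2 + n ^ 2)).Nonempty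
    · obtain ⟨m0, hm0⟩ := hne
      rw [Finset.mem_filter] at hm0
      have hsub : (Ioc 0 N).filter (fun m => p ^ k ∣ m ^ 2 + n ^ 2) ⊆
          (Ioc 0 N).filter (fun m => m ≡ m0 [MOD p ^ k]) ∪
          (Ioc 0 N).filter (fun m => m ≡ (p ^ k - 1) * m0 [MOD p ^ k]) := by
        intro m hm
        rw [Finset.mem_filter] at hm
        rw [Finset.mem_union, Finset.mem_filter, Finset.mem_filter]
        have hpz : Prime (p : ℤ) := Nat.prime_iff_prime_int.1 hp
        have d1 : ((p : ℤ) ^ k) ∣ (m : ℤ) ^ 2 + (n : ℤ) ^ 2 := by exact_mod_cast hm.2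
        have d2 : ((p : ℤ) ^ k) ∣ (m0 : ℤ) ^ 2 + (n : ℤ) ^ 2 := by exact_mod_cast hm0.2
        have d3 : ((p : ℤ) ^ k) ∣ ((m : ℤ) - m0) * ((m : ℤ) + m0) := by
          have := dvd_sub d1 d2
          have e : ((m : ℤ) - m0) * ((m : ℤ) + m0) =
            (m : ℤ) ^ 2 + (n : ℤ) ^ 2 - ((m0 : ℤ) ^ 2 + (n : ℤ) ^ 2) := by ring
          rw [e]
          exact this
        by_cases h : (p : ℤ) ∣ (m : ℤ) - m0
        · left
          refine ⟨hm.1, ?_⟩
          have h2 : ¬ (p : ℤ) ∣ (m : ℤ) + m0 := by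
            intro h3
            have h4 : (p : ℤ) ∣ 2 * (m : ℤ) := by
              have := dvd_add h h3
              have e : 2 * (m : ℤ) = (m : ℤ) - m0 + (m + m0) := by ring
              rw [e]; exact this
            have h5 : (p : ℤ) ∣ (m : ℤ) := by
              rcases hpz.dvd_mul.1 h4 with h6 | h6
              · exfalso
                have h7 : p ∣ 2 := by exact_mod_cast h6
                exact hp2 ((Nat.prime_dvd_prime_iff_eq hp Nat.prime_two).1 h7)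
              · exact h6
            have h6 : (p : ℤ) ∣ (n : ℤ) ^ 2 := by
              have h7 : (p : ℤ) ∣ (m : ℤ) ^ 2 + (n : ℤ) ^ 2 := (dvd_pow_self _ (by omega)).trans d1
              exact (dvd_add_right (dvd_pow h5 two_ne_zero)).1 h7
            have h7 : (p : ℤ) ∣ (n : ℤ) := hpz.dvd_of_dvd_pow h6
            exact hn (by exact_mod_cast h7)
          have hco : IsCoprime ((p : ℤ) ^ k) ((m : ℤ) + m0) := by
            apply IsCoprime.pow_left
            exact (Prime.coprime_iff_not_dvd hpz).2 h2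
          have h3 := hco.dvd_of_dvd_mul_right d3
          have h4 : ((p ^ k : ℕ) : ℤ) ∣ (m : ℤ) - (m0 : ℤ) := by exact_mod_cast h3
          exact ((Nat.modEq_iff_dvd).2 h4).symm
        · right
          refine ⟨hm.1, ?_⟩
          have hco : IsCoprime ((p : ℤ) ^ k) ((m : ℤ) - m0) := by
            apply IsCoprime.pow_left
            exact (Prime.coprime_iff_not_dvd hpz).2 h
          have h3 := hco.dvd_of_dvd_mul_left d3
          have h4 : ((p ^ k : ℕ) : ℤ) ∣ (((p ^ k - 1) * m0 : ℕ) : ℤ) - (m : ℤ) := by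
            have e : (((p ^ k - 1) * m0 : ℕ) : ℤ) - (m : ℤ) =
                ((p ^ k : ℕ) : ℤ) * m0 - ((m : ℤ) + m0) := by
              rw [Nat.cast_mul, Nat.cast_sub hpk]
              push_cast
              ring
            rw [e]
            refine dvd_sub (Dvd.intro _ rfl) ?_
            exact_mod_cast h3
          exact (Nat.modEq_iff_dvd).2 h4
      have c1 := count1 N (p ^ k) m0 hpk
      have c2 := count1 N (p ^ k) ((p ^ k - 1) * m0) hpk
      rw [abs_le] at c1 c2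
      have c3 := (Finset.card_le_card hsub).trans (Finset.card_union_le _ _)
      have c4 : (((Ioc 0 N).filter (fun m => p ^ k ∣ m ^ 2 + n ^ 2)).card : ℝ) ≤
        (((Ioc 0 N).filter (fun m => m ≡ m0 [MOD p ^ k])).card : ℝ) +
        (((Ioc 0 N).filter (fun m => m ≡ (p ^ k - 1) * m0 [MOD p ^ k])).card : ℝ) := by
        exact_mod_cast c3
      push_cast at c1 c2
      linarith [c1.2, c2.2]
    · rw [Finset.not_nonempty_iff_eq_empty] at hne
      rw [hne]
      simp only [Finset.card_empty, Nat.cast_zero]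
      positivity

theorem U_rec (p k N : ℕ) (hp : p.Prime) (hk : 1 ≤ k) :
    (U p k N : ℝ) ≤ N * (2 * ((N : ℝ) / (p : ℝ) ^ k + 1)) + U p (k - 2) (N / p) := by
  have hsplit : U p k N ≤
      (((Ioc 0 N) ×ˢ (Ioc 0 N)).filter
        (fun z : ℕ × ℕ => ¬ p ∣ z.1 ∧ p ^ k ∣ z.2 ^ 2 + z.1 ^ 2)).card +
      U p (k - 2) (N / p) := by
    have h1 : U p k N = (((Ioc 0 N) ×ˢ (Ioc 0 N)).filter
        (fun z : ℕ × ℕ => ¬ p ∣ z.1 ∧ p ^ k ∣ z.2 ^ 2 + z.1 ^ 2)).card +
        (((Ioc 0 N) ×ˢ (Ioc 0 N)).filter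
        (fun z : ℕ × ℕ => p ∣ z.1 ∧ p ^ k ∣ z.2 ^ 2 + z.1 ^ 2)).card := by
      unfold U
      rw [← Finset.card_union_of_disjoint]
      · congr 1
        ext z
        simp only [Finset.mem_union, Finset.mem_filter]
        tauto
      · rw [Finset.disjoint_filter]
        intro z _ h1 h2
        exact h1.1 h2.1
    rw [h1]
    refine Nat.add_le_add_left ?_ _
    unfold U
    have h2 : ((Ioc 0 N) ×ˢ (Ioc 0 N)).filter
        (fun z : ℕ × ℕ => p ∣ z.1 ∧ p ^ k ∣ z.2 ^ 2 + z.1 ^ 2) ⊆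
        (((Ioc 0 (N / p)) ×ˢ (Ioc 0 (N / p))).filter
          (fun z : ℕ × ℕ => p ^ (k - 2) ∣ z.2 ^ 2 + z.1 ^ 2)).image
          (fun z => (p * z.1, p * z.2)) := by
      rintro ⟨n, m⟩ hz
      simp only [Finset.mem_filter, Finset.mem_product, Finset.mem_Ioc] at hz
      obtain ⟨⟨⟨hn0, hnN⟩, ⟨hm0, hmN⟩⟩, ⟨n', rfl⟩, hd⟩ := hz
      have hpm : p ∣ m := by
        have h3 : p ∣ m ^ 2 + (p * n') ^ 2 := (dvd_pow_self p (by omega)).trans hd
        have h4 : p ∣ (p * n') ^ 2 := dvd_pow (Dvd.intro _ rfl) two_ne_zero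
        exact hp.dvd_of_dvd_pow ((Nat.dvd_add_left h4).1 h3)
      obtain ⟨m', rfl⟩ := hpm
      simp only [Finset.mem_image, Finset.mem_filter, Finset.mem_product, Finset.mem_Ioc]
      refine ⟨(n', m'), ⟨⟨⟨Nat.pos_of_mul_pos_left hn0, ?_⟩, ⟨Nat.pos_of_mul_pos_left hm0, ?_⟩⟩, ?_⟩, rfl⟩
      · rw [Nat.le_div_iff_mul_le hp.pos, mul_comm]; exact hnN
      · rw [Nat.le_div_iff_mul_le hp.pos, mul_comm]; exact hmN
      · by_cases hk2 : 2 ≤ k
        · have e1 : (p * m') ^ 2 + (p * n') ^ 2 = p ^ 2 * (m' ^ 2 + n' ^ 2) := by ring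
          have e2 : p ^ k = p ^ 2 * p ^ (k - 2) := by
            rw [← pow_add]; congr 1; omega
          rw [e1, e2] at hd
          exact Nat.dvd_of_mul_dvd_mul_left (pow_pos hp.pos 2) hd
        · have : k - 2 = 0 := by omega
          rw [this, pow_zero]
          exact one_dvd _
    exact (Finset.card_le_card h2).trans Finset.card_image_le
  have h3 : ((((Ioc 0 N) ×ˢ (Ioc 0 N)).filter
        (fun z : ℕ × ℕ => ¬ p ∣ z.1 ∧ p ^ k ∣ z.2 ^ 2 + z.1 ^ 2)).card : ℝ) ≤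
        N * (2 * ((N : ℝ) / (p : ℝ) ^ k + 1)) := by
    rw [Finset.card_filter]
    push_cast
    rw [Finset.sum_product]
    have h4 : ∀ n ∈ Ioc 0 N, ∑ m ∈ Ioc 0 N, (if ¬ p ∣ n ∧ p ^ k ∣ m ^ 2 + n ^ 2 then (1 : ℝ) else 0)
        ≤ 2 * ((N : ℝ) / (p : ℝ) ^ k + 1) := by
      intro n _
      by_cases hn : p ∣ n
      · simp only [hn, not_true_eq_false, false_and, if_false, Finset.sum_const_zero]
        positivity
      · simp only [hn, not_false_eq_true, true_and]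
        have := count_sq p k n N hp hk hn
        rw [Finset.card_filter] at this
        push_cast at this
        exact this
    refine (Finset.sum_le_sum h4).trans ?_
    rw [Finset.sum_const, Nat.card_Ioc, Nat.sub_zero, nsmul_eq_mul]
  have h4 : (U p k N : ℝ) ≤ ((((Ioc 0 N) ×ˢ (Ioc 0 N)).filter
        (fun z : ℕ × ℕ => ¬ p ∣ z.1 ∧ p ^ k ∣ z.2 ^ 2 + z.1 ^ 2)).card : ℝ) +
      U p (k - 2) (N / p) := by exact_mod_cast hsplit
  linarith

theorem U_zero (p N : ℕ) : (U p 0 N : ℝ) = (N : ℝ) ^ 2 := by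
  unfold U
  simp [sq]

theorem U_le (p : ℕ) (hp : p.Prime) (k : ℕ) : ∀ N : ℕ,
    (U p k N : ℝ) ≤ ((k : ℝ) + 2) * ((N : ℝ) ^ 2 / (p : ℝ) ^ k) + 4 * N := by
  have hp2 : (2 : ℝ) ≤ p := by exact_mod_cast hp.two_le
  have hp0 : (0 : ℝ) < p := by linarith
  induction k using Nat.twoStepInduction with
  | zero =>
    intro N
    rw [U_zero]
    have : (0 : ℝ) ≤ N := by positivity
    simp only [pow_zero, div_one]
    push_cast
    nlinarith [sq_nonneg (N : ℝ)]
  | one =>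
    intro N
    have h := U_rec p 1 N hp le_rfl
    simp only [pow_one, Nat.cast_one] at h ⊢
    rw [show (1 : ℕ) - 2 = 0 from rfl, U_zero] at h
    have h1 : ((N / p : ℕ) : ℝ) ≤ (N : ℝ) / p := Nat.cast_div_le
    have h2 : ((N / p : ℕ) : ℝ) ^ 2 ≤ (N : ℝ) ^ 2 / p := by
      calc ((N / p : ℕ) : ℝ) ^ 2 ≤ ((N : ℝ) / p) ^ 2 := pow_le_pow_left₀ (by positivity) h1 2
        _ = (N : ℝ) ^ 2 / p * (1 / p) := by ring
        _ ≤ (N : ℝ) ^ 2 / p * 1 := by
          refine mul_le_mul_of_nonneg_left ?_ (by positivity)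
          rw [div_le_one hp0]; linarith
        _ = _ := mul_one _
    have h3 : (N : ℝ) * (2 * ((N : ℝ) / p + 1)) = 2 * ((N : ℝ) ^ 2 / p) + 2 * N := by ring
    have : (0 : ℝ) ≤ N := by positivity
    rw [h3] at h
    linarith
  | more k ih _ =>
    intro N
    have h := U_rec p (k + 2) N hp (by omega)
    rw [show k + 2 - 2 = k from rfl] at h
    have h0 := ih (N / p)
    have h1 : ((N / p : ℕ) : ℝ) ≤ (N : ℝ) / p := Nat.cast_div_le
    have h2 : ((N / p : ℕ) : ℝ) ^ 2 / (p : ℝ) ^ k ≤ (N : ℝ) ^ 2 / (p : ℝ) ^ (k + 2) := by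
      calc ((N / p : ℕ) : ℝ) ^ 2 / (p : ℝ) ^ k ≤ ((N : ℝ) / p) ^ 2 / (p : ℝ) ^ k := by
            gcongr
        _ = _ := by
          rw [div_pow, div_div, ← pow_add, add_comm]
    have h3 : 4 * ((N / p : ℕ) : ℝ) ≤ 2 * N := by
      have : (N : ℝ) / p ≤ N / 2 := by gcongr
      linarith
    have h4 : ((k : ℝ) + 2) * (((N / p : ℕ) : ℝ) ^ 2 / (p : ℝ) ^ k) ≤
        ((k : ℝ) + 2) * ((N : ℝ) ^ 2 / (p : ℝ) ^ (k + 2)) :=
      mul_le_mul_of_nonneg_left h2 (by positivity)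
    have h5 : (N : ℝ) * (2 * ((N : ℝ) / (p : ℝ) ^ (k + 2) + 1)) =
      2 * ((N : ℝ) ^ 2 / (p : ℝ) ^ (k + 2)) + 2 * N := by ring
    rw [h5] at h
    push_cast
    nlinarith

theorem U_one_three (p : ℕ) (hp : p.Prime) (h3 : p % 4 = 3) (N : ℕ) :
    (U p 1 N : ℝ) ≤ (N : ℝ) ^ 2 / (p : ℝ) ^ 2 := by
  haveI : Fact p.Prime := ⟨hp⟩
  have hsub : ((Ioc 0 N) ×ˢ (Ioc 0 N)).filter (fun z : ℕ × ℕ => p ^ 1 ∣ z.2 ^ 2 + z.1 ^ 2) ⊆
      ((Ioc 0 N).filter (fun n => p ∣ n)) ×ˢ ((Ioc 0 N).filter (fun n => p ∣ n)) := by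
    rintro ⟨n, m⟩ hz
    simp only [Finset.mem_filter, Finset.mem_product, pow_one] at hz ⊢
    have hn : p ∣ n := by
      by_contra hn
      have h1 : ((m : ZMod p)) ^ 2 + (n : ZMod p) ^ 2 = 0 := by
        have := (ZMod.natCast_eq_zero_iff (m ^ 2 + n ^ 2) p).2 hz.2
        push_cast at this
        exact this
      have hn0 : (n : ZMod p) ≠ 0 := fun h => hn ((ZMod.natCast_eq_zero_iff n p).1 h)
      have h2 : IsSquare (-1 : ZMod p) := by
        refine ⟨(m : ZMod p) / n, ?_⟩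
        field_simp
        linear_combination (-1 : ZMod p) * h1
      exact (ZMod.exists_sq_eq_neg_one_iff.1 h2) h3
    have hm : p ∣ m := by
      have h4 : p ∣ n ^ 2 := dvd_pow hn two_ne_zero
      exact hp.dvd_of_dvd_pow ((Nat.dvd_add_left h4).1 hz.2)
    exact ⟨⟨hz.1.1, hn⟩, hz.1.2, hm⟩
  have h1 := Finset.card_le_card hsub
  rw [Finset.card_product] at h1
  have h2 : (U p 1 N : ℝ) ≤ (((Ioc 0 N).filter (fun n => p ∣ n)).card : ℝ) *
      (((Ioc 0 N).filter (fun n => p ∣ n)).card : ℝ) := by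
    unfold U
    exact_mod_cast h1
  have h3 := count_dvd N p
  calc (U p 1 N : ℝ) ≤ _ := h2
    _ ≤ ((N : ℝ) / p) * ((N : ℝ) / p) := mul_le_mul h3 h3 (by positivity) (by positivity)
    _ = _ := by rw [div_mul_div_comm, sq, sq]

/-- The classes are exactly the solutions of `p ∣ m ^ 2 + n ^ 2`. -/
theorem W_spec (c : ℕ → ℕ) (p n m : ℕ) (hp : p.Prime) (hc : p ∣ (c p) ^ 2 + 1) :
    (if p ∣ m ^ 2 + n ^ 2 then (1 : ℝ) else 0) ≤ W c p n m ∧
    W c p n m ≤ (if p ∣ m ^ 2 + n ^ 2 then (1 : ℝ) else 0) +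
      X c (p, true) n m * X c (p, false) n m := by
  haveI : Fact p.Prime := ⟨hp⟩
  have hc' : ((c p : ℕ) : ZMod p) ^ 2 + 1 = 0 := by
    have := (ZMod.natCast_eq_zero_iff ((c p) ^ 2 + 1) p).2 hc
    push_cast at this
    exact this
  have e1 : (m ≡ c p * n [MOD p]) ↔ (m : ZMod p) = c p * n := by
    rw [← ZMod.natCast_eq_natCast_iff]
    push_cast
    rfl
  have e2 : (m ≡ (p - 1) * (c p * n) [MOD p]) ↔ (m : ZMod p) = - (c p * n) := by
    rw [← ZMod.natCast_eq_natCast_iff, Nat.cast_mul, Nat.cast_sub hp.one_lt.le]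
    push_cast
    rw [ZMod.natCast_self]
    constructor
    · intro h; rw [h]; ring
    · intro h; rw [h]; ring
  have e3 : (p ∣ m ^ 2 + n ^ 2) ↔ ((m ≡ c p * n [MOD p]) ∨ (m ≡ (p - 1) * (c p * n) [MOD p])) := by
    rw [e1, e2, ← ZMod.natCast_eq_zero_iff]
    push_cast
    have e4 : (m : ZMod p) ^ 2 + (n : ZMod p) ^ 2 =
        ((m : ZMod p) - c p * n) * ((m : ZMod p) + c p * n) := by
      linear_combination (n : ZMod p) ^ 2 * hc'
    rw [e4, mul_eq_zero, sub_eq_zero, add_eq_zero_iff_eq_neg]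
  unfold W X
  simp only [if_true, Bool.false_eq_true, if_false]
  by_cases h1 : (m ≡ c p * n [MOD p]) <;> by_cases h2 : (m ≡ (p - 1) * (c p * n) [MOD p]) <;>
    simp only [e3, h1, h2, if_true, if_false, or_true, true_or, or_false, or_self] <;> norm_num

end Pool.Agent.Q68.OM
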