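import Pool.Agent.Q68.OM.Count

/-!
# Second moment of the counting function of split primes
-/

set_option autoImplicit false

open Finset

namespace Pool.Agent.Q68.OM

/-- Number of the two classes containing `m`. -/
def W (c : ℕ → ℕ) (p n m : ℕ) : ℝ := X c (p, true) n m + X c (p, false) n m

theorem W_nonneg (c : ℕ → ℕ) (p n m : ℕ) : 0 ≤ W c p n m :=
  add_nonneg (X_nonneg _ _ _ _) (X_nonneg _ _ _ _)

theorem sum_W (c : ℕ → ℕ) (p : ℕ) (hp : 0 < p) (n N : ℕ) :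
    2 * (N : ℝ) / p - 2 ≤ ∑ m ∈ Ioc 0 N, W c p n m := by
  have h1 := sum_X c (p, true) hp n N
  have h2 := sum_X c (p, false) hp n N
  rw [abs_le] at h1 h2
  unfold W
  rw [Finset.sum_add_distrib]
  have h3 : 2 * (N : ℝ) / p = (N : ℝ) / p + (N : ℝ) / p := by ring
  simp only at h1 h2
  rw [h3]
  linarith [h1.1, h2.1]

theorem sum_WW (c : ℕ → ℕ) (p q : ℕ) (hp : p.Prime) (hq : q.Prime) (hp2 : p ≠ 2)
    (hc : ¬ p ∣ c p) (n N : ℕ) :
    ∑ m ∈ Ioc 0 N, W c p n m * W c q n m ≤ 4 * (N : ℝ) / (p * q) + 4 +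
      (if p = q then 2 * (N : ℝ) / p + 2 * (if p ∣ n then (N : ℝ) / p else 0) else 0) := by
  by_cases hpq : p = q
  · subst hpq
    rw [if_pos rfl]
    have h1 := sum_X c (p, true) hp.pos n N
    have h2 := sum_X c (p, false) hp.pos n N
    rw [abs_le] at h1 h2
    simp only at h1 h2
    have h3 := sum_XX_same c p hp hp2 hc n N
    have h4 : ∀ m, W c p n m * W c p n m =
        X c (p, true) n m + X c (p, false) n m + 2 * (X c (p, true) n m * X c (p, false) n m) := by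
      intro m
      have h5 := X_sq c (p, true) n m
      have h6 := X_sq c (p, false) n m
      unfold W
      linear_combination h5 + h6
    rw [Finset.sum_congr rfl fun m _ => h4 m, Finset.sum_add_distrib, Finset.sum_add_distrib,
      ← Finset.mul_sum]
    have h7 : (0 : ℝ) ≤ 4 * (N : ℝ) / (p * p) := by positivity
    have h8 : 2 * (N : ℝ) / p = (N : ℝ) / p + (N : ℝ) / p := by ring
    rw [h8]
    linarith [h1.2, h2.2]
  · rw [if_neg hpq, add_zero]
    have h11 := sum_XX c (p, true) (q, true) hp hq hpq n N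
    have h12 := sum_XX c (p, true) (q, false) hp hq hpq n N
    have h21 := sum_XX c (p, false) (q, true) hp hq hpq n N
    have h22 := sum_XX c (p, false) (q, false) hp hq hpq n N
    simp only at h11 h12 h21 h22
    have h4 : ∀ m, W c p n m * W c q n m =
        X c (p, true) n m * X c (q, true) n m + X c (p, true) n m * X c (q, false) n m +
        (X c (p, false) n m * X c (q, true) n m + X c (p, false) n m * X c (q, false) n m) := by
      intro m
      unfold W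
      ring
    rw [Finset.sum_congr rfl fun m _ => h4 m, Finset.sum_add_distrib, Finset.sum_add_distrib,
      Finset.sum_add_distrib]
    have h8 : 4 * (N : ℝ) / (p * q) = (N : ℝ) / (p * q) + (N : ℝ) / (p * q) + (N : ℝ) / (p * q) +
      (N : ℝ) / (p * q) := by ring
    rw [h8]
    linarith

theorem variance (S : Finset ℕ) (y N : ℕ) (c : ℕ → ℕ)
    (hS : ∀ p ∈ S, p.Prime ∧ p ≠ 2 ∧ ¬ p ∣ c p) (hy : S.card ≤ y) (hN : y ^ 2 ≤ N) :
    ∑ n ∈ Ioc 0 N, ∑ m ∈ Ioc 0 N, ((∑ p ∈ S, W c p n m) - ∑ p ∈ S, 2 / (p : ℝ)) ^ 2 ≤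
      (N : ℝ) ^ 2 * (2 * (∑ p ∈ S, 2 / (p : ℝ)) + 8) := by
  set M : ℝ := ∑ p ∈ S, 2 / (p : ℝ) with hM
  have hM0 : 0 ≤ M := Finset.sum_nonneg fun p _ => by positivity
  have hMS : M ≤ S.card := by
    rw [hM]
    calc ∑ p ∈ S, 2 / (p : ℝ) ≤ ∑ p ∈ S, (1 : ℝ) := by
          refine Finset.sum_le_sum fun p hp => ?_
          have h2 : (2 : ℝ) ≤ p := by exact_mod_cast (hS p hp).1.two_le
          rw [div_le_one (by linarith)]
          exact h2
      _ = S.card := by simp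
  have hSy : (S.card : ℝ) ≤ y := by exact_mod_cast hy
  have hS0 : (0 : ℝ) ≤ S.card := by positivity
  have hNy : (y : ℝ) ^ 2 ≤ N := by exact_mod_cast hN
  have hN0 : (0 : ℝ) ≤ N := by positivity
  -- for each `n`
  have step : ∀ n ∈ Ioc 0 N, ∑ m ∈ Ioc 0 N, ((∑ p ∈ S, W c p n m) - M) ^ 2 ≤
      (N : ℝ) * M + 8 * (y : ℝ) ^ 2 + 2 * ∑ p ∈ S, (if p ∣ n then (N : ℝ) / p else 0) := by
    intro n _
    have e1 : ∀ m, ((∑ p ∈ S, W c p n m) - M) ^ 2 =
        ∑ p ∈ S, ∑ q ∈ S, W c p n m * W c q n m - 2 * M * ∑ p ∈ S, W c p n m + M ^ 2 := by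
      intro m
      rw [← Finset.sum_mul_sum]
      ring
    rw [Finset.sum_congr rfl fun m _ => e1 m, Finset.sum_add_distrib, Finset.sum_sub_distrib,
      ← Finset.mul_sum, Finset.sum_const, Nat.card_Ioc]
    have e2 : ∑ m ∈ Ioc 0 N, ∑ p ∈ S, ∑ q ∈ S, W c p n m * W c q n m =
        ∑ p ∈ S, ∑ q ∈ S, ∑ m ∈ Ioc 0 N, W c p n m * W c q n m := by
      rw [Finset.sum_comm]
      refine Finset.sum_congr rfl fun p _ => ?_
      rw [Finset.sum_comm]
    have e3 : ∑ m ∈ Ioc 0 N, ∑ p ∈ S, W c p n m = ∑ p ∈ S, ∑ m ∈ Ioc 0 N, W c p n m :=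
      Finset.sum_comm
    rw [e2, e3]
    have b1 : ∑ p ∈ S, ∑ q ∈ S, ∑ m ∈ Ioc 0 N, W c p n m * W c q n m ≤
        ∑ p ∈ S, ∑ q ∈ S, (4 * (N : ℝ) / (p * q) + 4 +
      (if p = q then 2 * (N : ℝ) / p + 2 * (if p ∣ n then (N : ℝ) / p else 0) else 0)) := by
      refine Finset.sum_le_sum fun p hp => Finset.sum_le_sum fun q hq => ?_
      exact sum_WW c p q (hS p hp).1 (hS q hq).1 (hS p hp).2.1 (hS p hp).2.2 n N
    have b2 : ∑ p ∈ S, ∑ q ∈ S, (4 * (N : ℝ) / (p * q) + 4 +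
      (if p = q then 2 * (N : ℝ) / p + 2 * (if p ∣ n then (N : ℝ) / p else 0) else 0)) =
      (N : ℝ) * M ^ 2 + 4 * (S.card : ℝ) ^ 2 + ((N : ℝ) * M +
        2 * ∑ p ∈ S, (if p ∣ n then (N : ℝ) / p else 0)) := by
      have f1 : ∀ p ∈ S, ∑ q ∈ S, (4 * (N : ℝ) / (p * q) + 4 +
          (if p = q then 2 * (N : ℝ) / p + 2 * (if p ∣ n then (N : ℝ) / p else 0) else 0)) =
          (N : ℝ) * ((2 / (p : ℝ)) * M) + 4 * (S.card : ℝ) +
            ((N : ℝ) * (2 / (p : ℝ)) + 2 * (if p ∣ n then (N : ℝ) / p else 0)) := by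
        intro p hp
        rw [Finset.sum_add_distrib, Finset.sum_add_distrib, Finset.sum_ite_eq, if_pos hp,
          Finset.sum_const, nsmul_eq_mul, hM, Finset.mul_sum, Finset.mul_sum]
        have f2 : ∑ q ∈ S, 4 * (N : ℝ) / (p * q) = ∑ q ∈ S, (N : ℝ) * (2 / (p : ℝ) * (2 / q)) := by
          refine Finset.sum_congr rfl fun q _ => ?_
          rw [div_mul_div_comm]
          ring
        rw [f2]
        ring
      rw [Finset.sum_congr rfl f1, Finset.sum_add_distrib, Finset.sum_add_distrib,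
        Finset.sum_add_distrib, ← Finset.mul_sum, ← Finset.sum_mul, ← Finset.mul_sum,
        ← Finset.mul_sum, ← Finset.mul_sum, Finset.sum_const, nsmul_eq_mul, ← hM]
      ring
    have b3 : (N : ℝ) * M - 2 * S.card ≤ ∑ p ∈ S, ∑ m ∈ Ioc 0 N, W c p n m := by
      have : (N : ℝ) * M - 2 * S.card = ∑ p ∈ S, (2 * (N : ℝ) / p - 2) := by
        rw [Finset.sum_sub_distrib, Finset.sum_const, nsmul_eq_mul, hM, Finset.mul_sum]
        congr 1
        · refine Finset.sum_congr rfl fun p _ => ?_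
          ring
        · ring
      rw [this]
      exact Finset.sum_le_sum fun p hp => sum_W c p (hS p hp).1.pos n N
    have b4 : 2 * M * ((N : ℝ) * M - 2 * S.card) ≤
        2 * M * ∑ p ∈ S, ∑ m ∈ Ioc 0 N, W c p n m :=
      mul_le_mul_of_nonneg_left b3 (by positivity)
    have b5 : 4 * M * (S.card : ℝ) ≤ 4 * (y : ℝ) ^ 2 := by
      have : M * (S.card : ℝ) ≤ y * y :=
        mul_le_mul (hMS.trans hSy) hSy hS0 (by positivity)
      nlinarith
    have b6 : 4 * (S.card : ℝ) ^ 2 ≤ 4 * (y : ℝ) ^ 2 := by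
      have : (S.card : ℝ) ^ 2 ≤ (y : ℝ) ^ 2 := pow_le_pow_left₀ hS0 hSy 2
      linarith
    rw [nsmul_eq_mul]
    push_cast
    simp only [Nat.sub_zero]
    have b7 := b1.trans b2.le
    nlinarith
  refine (Finset.sum_le_sum step).trans ?_
  rw [Finset.sum_add_distrib, Finset.sum_const, nsmul_eq_mul, ← Finset.mul_sum, Nat.card_Ioc,
    Nat.sub_zero, Finset.sum_comm]
  have c1 : ∑ p ∈ S, ∑ n ∈ Ioc 0 N, (if p ∣ n then (N : ℝ) / p else 0) ≤
      (N : ℝ) ^ 2 * (M / 2) := by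
    rw [hM, Finset.sum_div, Finset.mul_sum]
    refine Finset.sum_le_sum fun p hp => ?_
    rw [← Finset.sum_filter, Finset.sum_const, nsmul_eq_mul]
    have h2 : (1 : ℝ) ≤ p := by exact_mod_cast (hS p hp).1.one_lt.le
    have h3 := count_dvd N p
    have h4 : (0 : ℝ) ≤ (N : ℝ) / p := by positivity
    have h5 : (N : ℝ) / p ≤ N := div_le_self hN0 h2
    calc _ ≤ (N : ℝ) / p * ((N : ℝ) / p) := mul_le_mul_of_nonneg_right h3 h4
      _ ≤ (N : ℝ) * ((N : ℝ) / p) := mul_le_mul_of_nonneg_right h5 h4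
      _ = (N : ℝ) ^ 2 * (2 / (p : ℝ) / 2) := by ring
  have c2 : (N : ℝ) * (8 * (y : ℝ) ^ 2) ≤ (N : ℝ) * (8 * N) :=
    mul_le_mul_of_nonneg_left (by linarith) hN0
  nlinarith

end Pool.Agent.Q68.OM
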